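import Pool.Agent.Lib.MP_dba1af_an.Euler

/-!
# The unit disc, and the bound for kernels of Biot-Savart type
-/

open MeasureTheory Set Metric
open scoped ENNReal InnerProductSpace

namespace Pool.MP_dba1af

private theorem norm_rot (v : Plane) : ‖rot v‖ = ‖v‖ := by
  simp [rot, EuclideanSpace.norm_eq, Fin.sum_univ_two, add_comm]

private theorem continuous_rot : Continuous rot := by
  unfold rot
  fun_prop

theorem measurable_diskKernel (x : Plane) : Measurable (diskKernel x) := by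
  unfold diskKernel
  have h1 : Measurable fun y : Plane => (‖x - y‖ ^ 2)⁻¹ := by fun_prop
  have h2 : Measurable fun y : Plane => rot (x - y) :=
    (continuous_rot.comp (continuous_const.sub continuous_id)).measurable
  have h3 : Measurable fun y : Plane => (1 - 2 * ⟪x, y⟫_ℝ + ‖x‖ ^ 2 * ‖y‖ ^ 2)⁻¹ := by
    have : Continuous fun y : Plane => 1 - 2 * ⟪x, y⟫_ℝ + ‖x‖ ^ 2 * ‖y‖ ^ 2 := by fun_prop
    exact this.measurable.inv
  have h4 : Measurable fun y : Plane => rot (‖y‖ ^ 2 • x - y) := by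
    have : Continuous fun y : Plane => ‖y‖ ^ 2 • x - y := by fun_prop
    exact (continuous_rot.comp this).measurable
  exact ((h1.smul h2).sub (h3.smul h4)).const_smul ((2 * Real.pi)⁻¹ : ℝ)

theorem norm_diskKernel_le {x y : Plane} (hx : ‖x‖ < 1) (hy : ‖y‖ < 1) (hxy : y ≠ x) :
    ‖diskKernel x y‖ ≤ Real.pi⁻¹ * ‖x - y‖⁻¹ := by
  have hd : 0 < ‖x - y‖ := norm_pos_iff.2 (sub_ne_zero.2 hxy.symm)
  set q : ℝ := 1 - 2 * ⟪x, y⟫_ℝ + ‖x‖ ^ 2 * ‖y‖ ^ 2 with hq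
  have e1 : ‖x - y‖ ^ 2 = ‖x‖ ^ 2 - 2 * ⟪x, y⟫_ℝ + ‖y‖ ^ 2 := norm_sub_sq_real x y
  have hx1 : ‖x‖ ^ 2 < 1 := by nlinarith [norm_nonneg x]
  have hy1 : ‖y‖ ^ 2 < 1 := by nlinarith [norm_nonneg y]
  have hq1 : ‖x - y‖ ^ 2 ≤ q := by
    rw [e1, hq]
    nlinarith
  have hqpos : 0 < q := lt_of_lt_of_le (by positivity) hq1
  have e2 : ‖‖y‖ ^ 2 • x - y‖ ^ 2 = ‖y‖ ^ 2 * q := by
    rw [norm_sub_sq_real, norm_smul, inner_smul_left, hq]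
    simp only [norm_pow, norm_norm, RCLike.conj_to_real]
    ring
  have h1 : ‖(‖x - y‖ ^ 2)⁻¹ • rot (x - y)‖ = ‖x - y‖⁻¹ := by
    rw [norm_smul, norm_rot, norm_inv, norm_pow, norm_norm]
    field_simp
  have h2 : ‖q⁻¹ • rot (‖y‖ ^ 2 • x - y)‖ ≤ ‖x - y‖⁻¹ := by
    rw [norm_smul, norm_rot, norm_inv, Real.norm_of_nonneg hqpos.le]
    have h3 : ‖‖y‖ ^ 2 • x - y‖ ≤ Real.sqrt q := by
      refine Real.le_sqrt_of_sq_le ?_
      rw [e2]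
      nlinarith
    have h4 : ‖x - y‖ ≤ Real.sqrt q := Real.le_sqrt_of_sq_le hq1
    have h5 : 0 < Real.sqrt q := Real.sqrt_pos.2 hqpos
    have h6 : Real.sqrt q * Real.sqrt q = q := Real.mul_self_sqrt hqpos.le
    calc q⁻¹ * ‖‖y‖ ^ 2 • x - y‖ ≤ q⁻¹ * Real.sqrt q :=
          mul_le_mul_of_nonneg_left h3 (inv_nonneg.2 hqpos.le)
      _ = (Real.sqrt q)⁻¹ := by
          nth_rw 1 [← h6]
          field_simp
      _ ≤ ‖x - y‖⁻¹ := inv_anti₀ hd h4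
  unfold diskKernel
  rw [norm_smul, ← hq]
  have h7 := norm_sub_le ((‖x - y‖ ^ 2)⁻¹ • rot (x - y)) (q⁻¹ • rot (‖y‖ ^ 2 • x - y))
  have h8 : ‖(2 * Real.pi)⁻¹‖ = (2 * Real.pi)⁻¹ :=
    Real.norm_of_nonneg (inv_nonneg.2 (by positivity))
  rw [h8]
  have h9 : ‖(‖x - y‖ ^ 2)⁻¹ • rot (x - y) - q⁻¹ • rot (‖y‖ ^ 2 • x - y)‖ ≤ 2 * ‖x - y‖⁻¹ := by
    linarith
  calc (2 * Real.pi)⁻¹ * ‖(‖x - y‖ ^ 2)⁻¹ • rot (x - y) - q⁻¹ • rot (‖y‖ ^ 2 • x - y)‖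
      ≤ (2 * Real.pi)⁻¹ * (2 * ‖x - y‖⁻¹) :=
        mul_le_mul_of_nonneg_left h9 (inv_nonneg.2 (by positivity))
    _ = Real.pi⁻¹ * ‖x - y‖⁻¹ := by
        rw [mul_inv]
        ring

/-- For a kernel `|K(x, y)| ≤ C / |x - y|`, a steady state with gradient at most `L` and a motion,
both with vorticity at most `B`, which stay `ρ`-close in `L¹` up to the time `T`:
`‖w t - ws‖_∞ ≤ ‖w 0 - ws‖_∞ + 4 L C √(π B ρ) t`. -/
theorem slow_instability {Ω : Set Plane} (hΩ : IsOpen Ω) (hb : Bornology.IsBounded Ω)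
    {K : Plane → Plane → Plane} {C : ℝ} (hC : 0 ≤ C) (hKm : ∀ x ∈ Ω, Measurable (K x))
    (hK : ∀ x ∈ Ω, ∀ y ∈ Ω, y ≠ x → ‖K x y‖ ≤ C * ‖x - y‖⁻¹) {ws : Plane → ℝ}
    (hwsb : Bdd (volume.restrict Ω) ws)
    (horth : ∀ x ∈ Ω, fderiv ℝ ws x (∫ y in Ω, ws y • K x y) = 0) {L : ℝ}
    (hd : ∀ x ∈ Ω, DifferentiableAt ℝ ws x ∧ ‖fderiv ℝ ws x‖ ≤ L) {w : ℝ → Plane → ℝ}
    {Φ : ℝ → Plane → Plane} (hw : KernelMotion Ω K w Φ) {B ρ δ T : ℝ} (hB : 0 < B) (hρ : 0 < ρ)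
    (hws : ∀ᵐ x ∂(volume.restrict Ω), |ws x| ≤ B) (hw0 : ∀ᵐ x ∂(volume.restrict Ω), |w 0 x| ≤ B)
    (hwρ : ∀ t ∈ Icc 0 T, ∫ x in Ω, |w t x - ws x| ≤ ρ)
    (hδ : ∀ᵐ x ∂(volume.restrict Ω), |w 0 x - ws x| ≤ δ) :
    ∀ t ∈ Icc 0 T, ∀ᵐ x ∂(volume.restrict Ω),
      |w t x - ws x| ≤ δ + 4 * L * C * Real.sqrt (Real.pi * B * ρ) * t := by
  intro t ht
  have hwt : ∀ s, 0 ≤ s → ∀ᵐ x ∂(volume.restrict Ω), |w s x| ≤ B := by
    intro s hs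
    rw [ae_iff]
    have hm : MeasurableSet {x | ¬ |w s x| ≤ B} :=
      (measurableSet_le (hw.bdd s hs).1.abs measurable_const).compl
    rw [← (hw.flow_area s hs).measure_preimage hm.nullMeasurableSet]
    have : ∀ᵐ x ∂(volume.restrict Ω), |w s (Φ s x)| ≤ B := by
      filter_upwards [hw0, hw.transport s hs] with x a1 a2
      rw [a2]
      exact a1
    exact this
  have hη : ∀ s ∈ Icc 0 T, ∀ x ∈ Ω,
      ‖(∫ y in Ω, w s y • K x y) - ∫ y in Ω, ws y • K x y‖ ≤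
        C * (2 * Real.sqrt (2 * Real.pi * (2 * B) * ρ)) := by
    intro s hs x hx
    refine velocity_close hΩ hb hC hKm hK (hw.bdd s hs.1) hwsb (by positivity) hρ ?_
      (hwρ s hs) hx
    filter_upwards [hws, hwt s hs.1] with y a1 a2
    have := abs_sub (w s y) (ws y)
    linarith
  have hfin := sup_bound hΩ hwsb horth (fun x hx => (hd x hx).1) (fun x hx => (hd x hx).2) hw hη hδ
    ht
  have hsq : Real.sqrt (2 * Real.pi * (2 * B) * ρ) = 2 * Real.sqrt (Real.pi * B * ρ) := by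
    have : 2 * Real.pi * (2 * B) * ρ = 2 ^ 2 * (Real.pi * B * ρ) := by ring
    rw [this, Real.sqrt_mul (by norm_num), Real.sqrt_sq (by norm_num)]
  rw [hsq] at hfin
  filter_upwards [hfin] with x hx
  refine hx.trans (le_of_eq ?_)
  ring

end Pool.MP_dba1af
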