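import Pool.Agent.Lib.MP_dba1af_an.Stab

/-!
# Norms equivalent to the sup norm
-/

open MeasureTheory Set

namespace Pool.MP_dba1af

variable {α : Type*} [MeasurableSpace α] {μ : Measure α}

private theorem le_const {N : (α → ℝ) → ℝ} (hN : IsRINorm μ N) {f : α → ℝ} (hf : Bdd μ f)
    {a : ℝ} (ha : 0 ≤ a) (h : ∀ᵐ x ∂μ, |f x| ≤ a) : N f ≤ a * N (fun _ => (1 : ℝ)) := by
  have h1 := hN.smul a (fun _ => (1 : ℝ)) (bdd_const 1)
  rw [abs_of_nonneg ha] at h1
  rw [← h1]
  refine hN.mono_ae hf ((bdd_const 1).smul a) ?_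
  filter_upwards [h] with x hx
  simpa [abs_of_nonneg ha] using hx

/-- Stability in a norm which is equivalent to the sup norm is `L^∞` stability. -/
theorem stable_iff_supStable {N : (α → ℝ) → ℝ} (hN : IsRINorm μ N) (he : EquivSup μ N)
    {S : (ℝ → α → ℝ) → (ℝ → α → α) → Prop} (hS : ∀ w Φ, S w Φ → Carried μ w Φ)
    {ws : α → ℝ} (hws : Bdd μ ws) : StableIn S N ws ↔ SupStable μ S ws := by
  obtain ⟨c, hc, he⟩ := he
  set n1 : ℝ := N (fun _ => (1 : ℝ)) with hn1
  have hn : 0 ≤ n1 := hN.nonneg _ (bdd_const 1)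
  constructor
  · intro h ε hε
    obtain ⟨δ, hδ, h1⟩ := h (c * ε) (by positivity)
    refine ⟨δ / (n1 + 1), by positivity, fun w Φ hw h0 t ht => ?_⟩
    have hcar := hS w Φ hw
    have h2 := le_const hN ((hcar.bdd 0 le_rfl).sub hws) (by positivity) h0
    have h3 : δ / (n1 + 1) * n1 < δ := by
      rw [div_mul_eq_mul_div, div_lt_iff₀ (by positivity)]
      nlinarith
    have h4 := h1 w Φ hw (lt_of_le_of_lt h2 h3) t ht
    filter_upwards [he _ ((hcar.bdd t ht).sub hws)] with x hx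
    exact le_of_mul_le_mul_left (hx.trans h4.le) hc
  · intro h ε hε
    obtain ⟨δ, hδ, h1⟩ := h (ε / (n1 + 1)) (by positivity)
    refine ⟨c * δ, by positivity, fun w Φ hw h0 t ht => ?_⟩
    have hcar := hS w Φ hw
    have h2 := h1 w Φ hw (by
      filter_upwards [he _ ((hcar.bdd 0 le_rfl).sub hws)] with x hx
      exact le_of_mul_le_mul_left (hx.trans h0.le) hc) t ht
    refine lt_of_le_of_lt (le_const hN ((hcar.bdd t ht).sub hws) (by positivity) h2) ?_
    rw [div_mul_eq_mul_div, div_lt_iff₀ (by positivity)]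
    nlinarith

end Pool.MP_dba1af
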