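import Pool.Agent.Lib.MP_dba1af_an.Norms

/-!
# The `L^p` norms are rearrangement invariant and not equivalent to the sup norm
-/

open MeasureTheory Set
open scoped ENNReal

namespace Pool.MP_dba1af

variable {α : Type*} [MeasurableSpace α] {μ : Measure α}

/-- The norm of `L^p(μ)`. -/
noncomputable def lpN (μ : Measure α) (p : ℝ≥0∞) (f : α → ℝ) : ℝ :=
  (eLpNorm f p μ).toReal

private theorem memLp_of_bdd [IsFiniteMeasure μ] {p : ℝ≥0∞} {f : α → ℝ} (hf : Bdd μ f) :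
    MemLp f p μ := by
  obtain ⟨h1, C, hC⟩ := hf
  exact MemLp.of_bound h1.aestronglyMeasurable C (by simpa using hC)

private theorem lintegral_mono_dist {p : ℝ} (hp : 0 < p) {f g : α → ℝ} (hf : Measurable f)
    (hg : Measurable g) (h : ∀ a : ℝ, 0 ≤ a → μ {x | a < |f x|} ≤ μ {x | a < |g x|}) :
    ∫⁻ x, ‖f x‖ₑ ^ p ∂μ ≤ ∫⁻ x, ‖g x‖ₑ ^ p ∂μ := by
  have key : ∀ k : α → ℝ, Measurable k → ∫⁻ x, ‖k x‖ₑ ^ p ∂μ =
      ENNReal.ofReal p * ∫⁻ t in Ioi 0, μ {a : α | t < |k a|} * ENNReal.ofReal (t ^ (p - 1)) := by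
    intro k hk
    rw [← lintegral_rpow_eq_lintegral_meas_lt_mul μ
      (Filter.Eventually.of_forall fun x => abs_nonneg (k x)) hk.abs.aemeasurable hp]
    refine lintegral_congr fun x => ?_
    rw [← ENNReal.ofReal_rpow_of_nonneg (abs_nonneg _) hp.le, ← Real.enorm_eq_ofReal_abs]
  rw [key f hf, key g hg]
  gcongr 1
  refine setLIntegral_mono' measurableSet_Ioi fun t ht => ?_
  gcongr 1
  exact h t (le_of_lt ht)

/-- On a finite measure space the `L^q` norm dominates the `L^p` norm for `p ≤ q`. -/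
theorem lpN_le_lpN [IsFiniteMeasure μ] {p q : ℝ≥0∞} (hp : 1 ≤ p) (hpq : p ≤ q) (hq : q ≠ ⊤) :
    ∃ C : ℝ, ∀ f, Bdd μ f → lpN μ p f ≤ C * lpN μ q f := by
  refine ⟨(μ univ ^ (1 / p.toReal - 1 / q.toReal)).toReal, fun f hf => ?_⟩
  have h := eLpNorm_le_eLpNorm_mul_rpow_measure_univ hpq hf.1.aestronglyMeasurable (μ := μ)
  have hp0 : 0 < p.toReal :=
    ENNReal.toReal_pos (lt_of_lt_of_le zero_lt_one hp).ne' (ne_top_of_le_ne_top hq hpq)
  have hle : p.toReal ≤ q.toReal := ENNReal.toReal_mono hq hpq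
  have hexp : 0 ≤ 1 / p.toReal - 1 / q.toReal := by
    have := one_div_le_one_div_of_le hp0 hle
    linarith
  unfold lpN
  rw [mul_comm, ← ENNReal.toReal_mul]
  exact ENNReal.toReal_mono (ENNReal.mul_ne_top (memLp_of_bdd hf).eLpNorm_ne_top
    (ENNReal.rpow_ne_top_of_nonneg hexp (measure_ne_top μ _))) h

theorem lpN_one {f : α → ℝ} (hf : Measurable f) : lpN μ 1 f = ∫ x, |f x| ∂μ := by
  unfold lpN
  rw [eLpNorm_one_eq_lintegral_enorm]
  exact (integral_norm_eq_lintegral_enorm hf.aestronglyMeasurable).symm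

theorem lpN_isRINorm [IsFiniteMeasure μ] {p : ℝ≥0∞} (hp : 1 ≤ p) (hp2 : p ≠ ⊤) :
    IsRINorm μ (lpN μ p) where
  nonneg f _ := ENNReal.toReal_nonneg
  add_le f g hf hg := by
    have h := eLpNorm_add_le hf.1.aestronglyMeasurable hg.1.aestronglyMeasurable hp (μ := μ)
    have h1 := (memLp_of_bdd (p := p) hf).eLpNorm_ne_top
    have h2 := (memLp_of_bdd (p := p) hg).eLpNorm_ne_top
    unfold lpN
    rw [← ENNReal.toReal_add h1 h2]
    exact ENNReal.toReal_mono (ENNReal.add_ne_top.2 ⟨h1, h2⟩) h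
  smul c f hf := by
    unfold lpN
    have : (fun x => c * f x) = c • f := by ext x; simp
    rw [this, eLpNorm_const_smul, ENNReal.toReal_mul]
    simp
  mono f g hf hg h := by
    have hp0 : p ≠ 0 := (lt_of_lt_of_le zero_lt_one hp).ne'
    have hpr : 0 < p.toReal := ENNReal.toReal_pos hp0 hp2
    have h2 := (memLp_of_bdd (p := p) hg).eLpNorm_ne_top
    unfold lpN
    refine ENNReal.toReal_mono h2 ?_
    rw [eLpNorm_eq_lintegral_rpow_enorm_toReal hp0 hp2,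
      eLpNorm_eq_lintegral_rpow_enorm_toReal hp0 hp2]
    exact ENNReal.rpow_le_rpow (lintegral_mono_dist hpr hf.1 hg.1 h) (by positivity)
  pos f hf h := by
    have hp0 : p ≠ 0 := (lt_of_lt_of_le zero_lt_one hp).ne'
    unfold lpN at h
    rw [ENNReal.toReal_eq_zero_iff] at h
    rcases h with h | h
    · rw [eLpNorm_eq_zero_iff hf.1.aestronglyMeasurable hp0] at h
      exact h
    · exact absurd h (memLp_of_bdd (p := p) hf).eLpNorm_ne_top
  l1 := by
    obtain ⟨C, hC⟩ := lpN_le_lpN (μ := μ) le_rfl hp hp2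
    refine ⟨C, fun f hf => ?_⟩
    rw [← lpN_one hf.1]
    exact hC f hf

theorem lpN_not_equivSup [IsFiniteMeasure μ] {p : ℝ≥0∞} (hp : 1 ≤ p) (hp2 : p ≠ ⊤)
    (hμ : ∀ s : ℝ≥0∞, 0 < s → ∃ E : Set α, MeasurableSet E ∧ 0 < μ E ∧ μ E < s) :
    ¬ EquivSup μ (lpN μ p) := by
  rintro ⟨c, hc, h⟩
  have hp0 : p ≠ 0 := (lt_of_lt_of_le zero_lt_one hp).ne'
  have hpr : 0 < p.toReal := ENNReal.toReal_pos hp0 hp2
  obtain ⟨E, hE, hE0, hE1⟩ := hμ (ENNReal.ofReal c ^ p.toReal)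
    (ENNReal.rpow_pos (by simpa using hc) ENNReal.ofReal_ne_top)
  have h1 := h _ (bdd_ind hE)
  have h2 : ∃ x, x ∈ E ∧ c * |E.indicator (fun _ => (1 : ℝ)) x| ≤
      lpN μ p (E.indicator fun _ => (1 : ℝ)) := by
    by_contra hno
    push Not at hno
    refine hE0.ne' (measure_mono_null (fun x hx => ?_) (ae_iff.1 h1))
    exact not_le.2 (hno x hx)
  obtain ⟨x, hx, h3⟩ := h2
  simp only [hx, indicator_of_mem, abs_one, mul_one] at h3
  unfold lpN at h3
  rw [eLpNorm_indicator_const hE hp0 hp2] at h3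
  simp only [enorm_one, one_mul, one_div] at h3
  have h4 : μ E ^ (p.toReal)⁻¹ < ENNReal.ofReal c := by
    have := ENNReal.rpow_lt_rpow hE1 (inv_pos.2 hpr)
    rwa [← ENNReal.rpow_mul, mul_inv_cancel₀ hpr.ne', ENNReal.rpow_one] at this
  have h5 : (μ E ^ (p.toReal)⁻¹).toReal < c := by
    have := (ENNReal.toReal_lt_toReal (ne_top_of_lt h4) ENNReal.ofReal_ne_top).2 h4
    rwa [ENNReal.toReal_ofReal hc.le] at this
  linarith

end Pool.MP_dba1af
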