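import Mathlib

/-!
# Potential estimates in the plane
-/

open MeasureTheory Set Metric
open scoped ENNReal

namespace Pool.MP_dba1af

/-- The Euclidean plane. -/
abbrev Plane := EuclideanSpace ℝ (Fin 2)

private theorem real_ball : (volume : Measure Plane).real (ball 0 1) = Real.pi := by
  simp [Measure.real, Real.pi_pos.le]

private theorem ind_integrable (r : ℝ) :
    Integrable (fun z : Plane => (Iio r).indicator (fun s : ℝ => s⁻¹) ‖z‖) volume := by
  rw [integrable_fun_norm_addHaar (volume : Measure Plane)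
    (f := (Iio r).indicator fun s : ℝ => s⁻¹)]
  have hd : Module.finrank ℝ Plane = 2 := by simp
  rw [hd]
  have h1 : IntegrableOn ((Iio r).indicator fun _ : ℝ => (1 : ℝ)) (Ioi 0) := by
    rw [← integrable_indicator_iff measurableSet_Ioi, indicator_indicator, Ioi_inter_Iio,
      integrable_indicator_iff measurableSet_Ioo]
    exact integrableOn_const (by simp)
  refine h1.congr_fun (fun y hy => ?_) measurableSet_Ioi
  have hy0 : (0 : ℝ) < y := hy
  by_cases hyr : y < r
  · simp [hyr, hy0.ne']
  · simp [hyr]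

private theorem ind_integral {r : ℝ} (hr : 0 ≤ r) :
    ∫ z : Plane, (Iio r).indicator (fun s : ℝ => s⁻¹) ‖z‖ = 2 * Real.pi * r := by
  rw [integral_fun_norm_addHaar (volume : Measure Plane) (Iio r |>.indicator fun s : ℝ => s⁻¹)]
  have hd : Module.finrank ℝ Plane = 2 := by simp
  rw [hd, real_ball]
  have h1 : ∫ y in Ioi (0 : ℝ), y ^ (2 - 1) • (Iio r).indicator (fun s : ℝ => s⁻¹) y = r := by
    have h2 : ∫ y in Ioi (0 : ℝ), y ^ (2 - 1) • (Iio r).indicator (fun s : ℝ => s⁻¹) y =
        ∫ y in Ioi (0 : ℝ), (Iio r).indicator (fun _ : ℝ => (1 : ℝ)) y := by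
      refine setIntegral_congr_fun measurableSet_Ioi fun y hy => ?_
      have hy0 : (0 : ℝ) < y := hy
      by_cases hyr : y < r
      · simp [hyr, hy0.ne']
      · simp [hyr]
    rw [h2, setIntegral_indicator measurableSet_Iio, Ioi_inter_Iio]
    simp [hr]
  rw [h1]
  simp only [nsmul_eq_mul, smul_eq_mul, Nat.cast_ofNat]
  ring

theorem inv_integrableOn_ball (x : Plane) (r : ℝ) :
    IntegrableOn (fun y => ‖x - y‖⁻¹) (ball x r) := by
  rw [← integrable_indicator_iff measurableSet_ball]
  have h := (ind_integrable r).comp_sub_left x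
  refine h.congr (Filter.Eventually.of_forall fun y => ?_)
  by_cases hy : y ∈ ball x r
  · have : ‖x - y‖ < r := by rwa [← dist_eq_norm, dist_comm]
    simp [hy, this]
  · have : ¬ ‖x - y‖ < r := by rwa [← dist_eq_norm, dist_comm]
    simp [hy, this]

theorem integral_inv_ball (x : Plane) {r : ℝ} (hr : 0 ≤ r) :
    ∫ y in ball x r, ‖x - y‖⁻¹ = 2 * Real.pi * r := by
  have h1 := integral_sub_left_eq_self
    (fun z : Plane => (Iio r).indicator (fun s : ℝ => s⁻¹) ‖z‖) (volume : Measure Plane) x
  rw [← integral_indicator measurableSet_ball, ← ind_integral hr, ← h1]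
  refine integral_congr_ae (Filter.Eventually.of_forall fun y => ?_)
  by_cases hy : y ∈ ball x r
  · have : ‖x - y‖ < r := by rwa [← dist_eq_norm, dist_comm]
    simp [hy, this]
  · have : ¬ ‖x - y‖ < r := by rwa [← dist_eq_norm, dist_comm]
    simp [hy, this]

theorem inv_integrableOn {Ω : Set Plane} (hb : Bornology.IsBounded Ω) (x : Plane) :
    IntegrableOn (fun y => ‖x - y‖⁻¹) Ω := by
  obtain ⟨r, hr⟩ := hb.subset_ball x
  exact (inv_integrableOn_ball x r).mono_set hr

/-- `∫ |g| / |x - y| dy ≤ 2 √(2π B ρ)` if `|g| ≤ B` and `∫ |g| ≤ ρ`. -/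
theorem potential_le {Ω : Set Plane} (hb : Bornology.IsBounded Ω) {g : Plane → ℝ}
    (hg : Measurable g) {B ρ : ℝ} (hB : 0 < B) (hρ : 0 < ρ)
    (hgB : ∀ᵐ y ∂(volume.restrict Ω), |g y| ≤ B) (hgρ : ∫ y in Ω, |g y| ≤ ρ) (x : Plane) :
    Integrable (fun y => |g y| * ‖x - y‖⁻¹) (volume.restrict Ω) ∧
      ∫ y in Ω, |g y| * ‖x - y‖⁻¹ ≤ 2 * Real.sqrt (2 * Real.pi * B * ρ) := by
  have : IsFiniteMeasure (volume.restrict Ω) :=
    ⟨by rw [Measure.restrict_apply_univ]; exact hb.measure_lt_top⟩
  have hI : Integrable (fun y => |g y|) (volume.restrict Ω) :=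
    Integrable.of_bound hg.abs.aestronglyMeasurable B (by simpa using hgB)
  have hm : AEStronglyMeasurable (fun y => |g y| * ‖x - y‖⁻¹) (volume.restrict Ω) := by
    have : Measurable (fun y : Plane => ‖x - y‖⁻¹) :=
      (measurable_const.sub measurable_id).norm.inv
    exact (hg.abs.mul this).aestronglyMeasurable
  have hint : Integrable (fun y => |g y| * ‖x - y‖⁻¹) (volume.restrict Ω) := by
    refine ((inv_integrableOn hb x).const_mul B).mono' hm ?_
    filter_upwards [hgB] with y hy
    rw [Real.norm_eq_abs, abs_mul, abs_abs, abs_of_nonneg (inv_nonneg.2 (norm_nonneg (x - y)))]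
    exact mul_le_mul_of_nonneg_right hy (inv_nonneg.2 (norm_nonneg _))
  refine ⟨hint, ?_⟩
  have key : ∀ r : ℝ, 0 < r → ∫ y in Ω, |g y| * ‖x - y‖⁻¹ ≤ B * (2 * Real.pi * r) + r⁻¹ * ρ := by
    intro r hr
    have hJ : Integrable ((ball x r).indicator fun y => ‖x - y‖⁻¹) (volume.restrict Ω) := by
      rw [integrable_indicator_iff measurableSet_ball]
      exact (inv_integrableOn_ball x r).mono_measure Measure.restrict_le_self
    have h1 : ∫ y in Ω, |g y| * ‖x - y‖⁻¹ ≤
        ∫ y in Ω, (B * (ball x r).indicator (fun y => ‖x - y‖⁻¹) y + r⁻¹ * |g y|) := by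
      refine integral_mono_ae hint ((hJ.const_mul B).add (hI.const_mul _)) ?_
      filter_upwards [hgB] with y hy
      have hnn : 0 ≤ ‖x - y‖⁻¹ := inv_nonneg.2 (norm_nonneg _)
      by_cases hyb : y ∈ ball x r
      · simp only [hyb, indicator_of_mem]
        have h2 := mul_le_mul_of_nonneg_right hy hnn
        have h3 : 0 ≤ r⁻¹ * |g y| := mul_nonneg (inv_nonneg.2 hr.le) (abs_nonneg _)
        linarith
      · simp only [hyb, not_false_eq_true, indicator_of_notMem, mul_zero, zero_add]
        have h4 : r ≤ ‖x - y‖ := by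
          rw [← dist_eq_norm, dist_comm]
          exact not_lt.1 hyb
        rw [mul_comm]
        exact mul_le_mul_of_nonneg_right (inv_anti₀ hr h4) (abs_nonneg _)
    refine h1.trans ?_
    rw [integral_add (hJ.const_mul B) (hI.const_mul _), integral_const_mul, integral_const_mul]
    have h5 : ∫ y in Ω, (ball x r).indicator (fun y => ‖x - y‖⁻¹) y ≤ 2 * Real.pi * r := by
      rw [← integral_inv_ball x hr.le, ← integral_indicator measurableSet_ball]
      refine integral_mono_measure Measure.restrict_le_self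
        (Filter.Eventually.of_forall fun y => ?_) ?_
      · exact indicator_nonneg (fun y _ => inv_nonneg.2 (norm_nonneg _)) y
      · rw [integrable_indicator_iff measurableSet_ball]
        exact inv_integrableOn_ball x r
    have h6 := mul_le_mul_of_nonneg_left h5 hB.le
    have h7 := mul_le_mul_of_nonneg_left hgρ (inv_nonneg.2 hr.le)
    linarith
  have hq : 0 < 2 * Real.pi * B * ρ := by positivity
  set s := Real.sqrt (2 * Real.pi * B * ρ) with hs
  have hs0 : 0 < s := Real.sqrt_pos.2 hq
  have hs2 : s * s = 2 * Real.pi * B * ρ := Real.mul_self_sqrt hq.le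
  have h8 := key (s / (2 * Real.pi * B)) (by positivity)
  have h9 : B * (2 * Real.pi * (s / (2 * Real.pi * B))) = s := by field_simp
  have h10 : (s / (2 * Real.pi * B))⁻¹ * ρ = s := by
    rw [inv_div, div_mul_eq_mul_div, div_eq_iff hs0.ne', ← hs2]
  rw [h9, h10] at h8
  linarith

end Pool.MP_dba1af
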