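import Pool.Agent.Lib.MP_dba1af_an.Stab
import Pool.Agent.Lib.MP_dba1af_an.LpN
import Pool.Agent.Lib.MP_dba1af_an.Plane

/-!
# The 2D Euler equation on a bounded planar domain
-/

open MeasureTheory Set Metric Laplacian
open scoped ENNReal InnerProductSpace ContDiff

namespace Pool.MP_dba1af

/-- Rotation by a right angle. -/
def rot (v : Plane) : Plane := !₂[-(v 1), v 0]

/-- `∇^⊥ ψ = (-∂₂ψ, ∂₁ψ)`. -/
noncomputable def perpGrad (ψ : Plane → ℝ) (x : Plane) : Plane := rot (gradient ψ x)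

/-- For the times `t ≥ 0` the bounded measurable vorticity `w t` on `Ω` is carried by the flow `Φ` of
the velocity `u`, which consists of area preserving homeomorphisms of `Ω`. -/
structure IsFlow (Ω : Set Plane) (u : ℝ → Plane → Plane) (w : ℝ → Plane → ℝ)
    (Φ : ℝ → Plane → Plane) : Prop where
  bdd : ∀ t, 0 ≤ t → Bdd (volume.restrict Ω) (w t)
  flow_zero : ∀ x ∈ Ω, Φ 0 x = x
  flow_bij : ∀ t, 0 ≤ t → BijOn (Φ t) Ω Ω
  flow_cont : ∀ t, 0 ≤ t → ContinuousOn (Φ t) Ω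
  flow_area : ∀ t, 0 ≤ t → MeasurePreserving (Φ t) (volume.restrict Ω) (volume.restrict Ω)
  flow_ode : ∀ t, 0 ≤ t → ∀ x ∈ Ω, HasDerivWithinAt (fun s => Φ s x) (u t (Φ t x)) (Ici 0) t
  transport : ∀ t, 0 ≤ t → ∀ᵐ x ∂(volume.restrict Ω), w t (Φ t x) = w 0 x

/-- Yudovich (Lagrangian) solutions of the 2D Euler equation on the planar domain `Ω`: the velocity is
`∇^⊥ψ`, where the stream function `ψ t` is continuous on the closure of `Ω`, zero on the boundary,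
`C¹` inside, and `Δψ = w` in the sense of distributions. -/
structure IsEuler (Ω : Set Plane) (w : ℝ → Plane → ℝ) (Φ : ℝ → Plane → Plane)
    (ψ : ℝ → Plane → ℝ) : Prop where
  flow : IsFlow Ω (fun t => perpGrad (ψ t)) w Φ
  psi_cont : ∀ t, 0 ≤ t → ContinuousOn (ψ t) (closure Ω)
  psi_zero : ∀ t, 0 ≤ t → ∀ x ∈ frontier Ω, ψ t x = 0
  psi_diff : ∀ t, 0 ≤ t → ContDiffOn ℝ 1 (ψ t) Ω
  poisson : ∀ t, 0 ≤ t → ∀ g : Plane → ℝ, ContDiff ℝ ∞ g → HasCompactSupport g → tsupport g ⊆ Ω →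
    ∫ x in Ω, ψ t x * (Δ g) x = ∫ x in Ω, w t x * g x

/-- The family of all motions `(w, Φ)` of the 2D Euler equation on `Ω`. -/
def EulerMotion (Ω : Set Plane) (w : ℝ → Plane → ℝ) (Φ : ℝ → Plane → Plane) : Prop :=
  ∃ ψ, IsEuler Ω w Φ ψ

/-- `ws` is a steady state with stream function `ψs`. -/
def IsSteady (Ω : Set Plane) (ws ψs : Plane → ℝ) : Prop :=
  ∃ Φ, IsEuler Ω (fun _ => ws) Φ (fun _ => ψs)

/-- The 2D Euler equation on `Ω` with the Biot-Savart law `u(x) = ∫ K(x, y) w(y) dy`. -/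
def KernelMotion (Ω : Set Plane) (K : Plane → Plane → Plane) (w : ℝ → Plane → ℝ)
    (Φ : ℝ → Plane → Plane) : Prop :=
  IsFlow Ω (fun t x => ∫ y in Ω, w t y • K x y) w Φ

/-- The Biot-Savart kernel of the unit disc, `∇^⊥` of its Green function in `x`. -/
noncomputable def diskKernel (x y : Plane) : Plane :=
  (2 * Real.pi)⁻¹ • ((‖x - y‖ ^ 2)⁻¹ • rot (x - y) -
    (1 - 2 * ⟪x, y⟫_ℝ + ‖x‖ ^ 2 * ‖y‖ ^ 2)⁻¹ • rot (‖y‖ ^ 2 • x - y))

theorem carried_of_flow {Ω : Set Plane} {u : ℝ → Plane → Plane} {w : ℝ → Plane → ℝ}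
    {Φ : ℝ → Plane → Plane} (h : IsFlow Ω u w Φ) : Carried (volume.restrict Ω) w Φ :=
  ⟨h.bdd, h.flow_area, h.transport⟩

theorem carried_of_euler {Ω : Set Plane} {w : ℝ → Plane → ℝ} {Φ : ℝ → Plane → Plane}
    (h : EulerMotion Ω w Φ) : Carried (volume.restrict Ω) w Φ := by
  obtain ⟨ψ, h⟩ := h
  exact carried_of_flow h.flow

theorem exists_small {Ω : Set Plane} (hΩ : IsOpen Ω) (hne : Ω.Nonempty) :
    ∀ s : ℝ≥0∞, 0 < s → ∃ E : Set Plane, MeasurableSet E ∧ 0 < (volume.restrict Ω) E ∧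
      (volume.restrict Ω) E < s := by
  intro s hs
  obtain ⟨x, hx⟩ := hne
  obtain ⟨U, hU, hUo, hUs⟩ := Set.exists_isOpen_lt_of_lt ({x} : Set Plane) s
    (μ := (volume : Measure Plane)) (by simpa using hs)
  have hxU : x ∈ U := hU rfl
  refine ⟨U, hUo.measurableSet, ?_, ?_⟩
  · rw [Measure.restrict_apply hUo.measurableSet]
    exact (hUo.inter hΩ).measure_pos _ ⟨x, hxU, hx⟩
  · exact lt_of_le_of_lt (Measure.restrict_apply_le _ _) hUs

/-- At a steady state the velocity is orthogonal to the gradient of the vorticity. -/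
theorem orthogonal {Ω : Set Plane} (hΩ : IsOpen Ω) {ws : Plane → ℝ} {us : Plane → Plane}
    {Φ : ℝ → Plane → Plane} (h : IsFlow Ω (fun _ => us) (fun _ => ws) Φ)
    (hd : ∀ x ∈ Ω, DifferentiableAt ℝ ws x) : ∀ x ∈ Ω, fderiv ℝ ws x (us x) = 0 := by
  have hc : ContinuousOn ws Ω := fun x hx => (hd x hx).continuousAt.continuousWithinAt
  have heq : ∀ t, 0 ≤ t → EqOn (fun x => ws (Φ t x)) ws Ω := by
    intro t ht
    exact Measure.eqOn_open_of_ae_eq (h.transport t ht) hΩ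
      (hc.comp (h.flow_cont t ht) (h.flow_bij t ht).mapsTo) hc
  intro x hx
  have h1 : HasDerivWithinAt (fun s => ws (Φ s x)) (fderiv ℝ ws x (us x)) (Ici 0) 0 := by
    have h2 := h.flow_ode 0 le_rfl x hx
    have h0 : Φ 0 x = x := h.flow_zero x hx
    have h3 : HasFDerivAt ws (fderiv ℝ ws (Φ 0 x)) (Φ 0 x) := by
      rw [h0]
      exact (hd x hx).hasFDerivAt
    have h4 := h3.comp_hasDerivWithinAt 0 h2
    rw [h0] at h4
    exact h4
  have h5 : HasDerivWithinAt (fun s => ws (Φ s x)) 0 (Ici 0) 0 := by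
    refine (hasDerivWithinAt_const (0 : ℝ) (Ici 0) (ws x)).congr (fun s hs => ?_) ?_
    · exact heq s hs hx
    · exact heq 0 le_rfl hx
  exact (uniqueDiffWithinAt_Ici (0 : ℝ)).eq_deriv _ h1 h5

/-- Along the trajectories of a motion whose velocity stays `η`-close to the steady velocity, the
value of the steady vorticity changes at most at the rate `L η`. -/
theorem particle_bound {Ω : Set Plane} {ws : Plane → ℝ} {us : Plane → Plane}
    (horth : ∀ x ∈ Ω, fderiv ℝ ws x (us x) = 0) {L : ℝ}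
    (hd : ∀ x ∈ Ω, DifferentiableAt ℝ ws x) (hL : ∀ x ∈ Ω, ‖fderiv ℝ ws x‖ ≤ L)
    {u : ℝ → Plane → Plane} {w : ℝ → Plane → ℝ} {Φ : ℝ → Plane → Plane} (hw : IsFlow Ω u w Φ)
    {T η : ℝ} (hη : ∀ t ∈ Icc 0 T, ∀ x ∈ Ω, ‖u t x - us x‖ ≤ η) {t : ℝ}
    (ht : t ∈ Icc 0 T) {x : Plane} (hx : x ∈ Ω) : |ws (Φ t x) - ws x| ≤ L * η * t := by
  have hT : (0 : ℝ) ∈ Icc 0 T := ⟨le_rfl, ht.1.trans ht.2⟩
  have hL0 : 0 ≤ L := (norm_nonneg _).trans (hL x hx)
  have key := (convex_Icc (0 : ℝ) T).norm_image_sub_le_of_norm_hasDerivWithin_le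
    (f := fun s => ws (Φ s x)) (f' := fun s => fderiv ℝ ws (Φ s x) (u s (Φ s x)))
    (C := L * η) (x := 0) (y := t) ?_ ?_ hT ht
  · have h0 : Φ 0 x = x := hw.flow_zero x hx
    simp only [h0, Real.norm_eq_abs, sub_zero, abs_of_nonneg ht.1] at key
    exact key
  · intro s hs
    have hs0 : 0 ≤ s := hs.1
    have hm : Φ s x ∈ Ω := (hw.flow_bij s hs0).mapsTo hx
    have h2 := (hw.flow_ode s hs0 x hx).mono (Icc_subset_Ici_self : Icc (0 : ℝ) T ⊆ Ici 0)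
    exact (hd _ hm).hasFDerivAt.comp_hasDerivWithinAt s h2
  · intro s hs
    have hm : Φ s x ∈ Ω := (hw.flow_bij s hs.1).mapsTo hx
    have h1 : fderiv ℝ ws (Φ s x) (u s (Φ s x)) =
        fderiv ℝ ws (Φ s x) (u s (Φ s x) - us (Φ s x)) := by
      rw [map_sub, horth _ hm, sub_zero]
    rw [h1]
    refine (ContinuousLinearMap.le_opNorm _ _).trans ?_
    exact mul_le_mul (hL _ hm) (hη s hs _ hm) (norm_nonneg _) hL0

/-- `‖w t - ws‖_∞ ≤ ‖w 0 - ws‖_∞ + L η t`. -/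
theorem sup_bound {Ω : Set Plane} (hΩ : IsOpen Ω) {ws : Plane → ℝ} {us : Plane → Plane}
    (hws : Bdd (volume.restrict Ω) ws) (horth : ∀ x ∈ Ω, fderiv ℝ ws x (us x) = 0) {L : ℝ}
    (hd : ∀ x ∈ Ω, DifferentiableAt ℝ ws x) (hL : ∀ x ∈ Ω, ‖fderiv ℝ ws x‖ ≤ L)
    {u : ℝ → Plane → Plane} {w : ℝ → Plane → ℝ} {Φ : ℝ → Plane → Plane} (hw : IsFlow Ω u w Φ)
    {T η δ : ℝ} (hη : ∀ t ∈ Icc 0 T, ∀ x ∈ Ω, ‖u t x - us x‖ ≤ η)
    (hδ : ∀ᵐ x ∂(volume.restrict Ω), |w 0 x - ws x| ≤ δ) {t : ℝ} (ht : t ∈ Icc 0 T) :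
    ∀ᵐ x ∂(volume.restrict Ω), |w t x - ws x| ≤ δ + L * η * t := by
  rw [ae_iff]
  have hm : MeasurableSet {x | ¬ |w t x - ws x| ≤ δ + L * η * t} :=
    (measurableSet_le ((hw.bdd t ht.1).sub hws).1.abs measurable_const).compl
  rw [← (hw.flow_area t ht.1).measure_preimage hm.nullMeasurableSet]
  have : ∀ᵐ x ∂(volume.restrict Ω), |w t (Φ t x) - ws (Φ t x)| ≤ δ + L * η * t := by
    filter_upwards [hδ, hw.transport t ht.1, ae_restrict_mem hΩ.measurableSet] with x a1 a2 a3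
    rw [a2]
    have a4 := particle_bound horth hd hL hw hη ht a3
    rw [abs_le] at a1 a4 ⊢
    constructor <;> linarith [a1.1, a1.2, a4.1, a4.2]
  exact this

/-- The velocities of two vorticities are close if the vorticities are `L¹` close. -/
theorem velocity_close {Ω : Set Plane} (hΩ : IsOpen Ω) (hb : Bornology.IsBounded Ω)
    {K : Plane → Plane → Plane} {C : ℝ} (hC : 0 ≤ C) (hKm : ∀ x ∈ Ω, Measurable (K x))
    (hK : ∀ x ∈ Ω, ∀ y ∈ Ω, y ≠ x → ‖K x y‖ ≤ C * ‖x - y‖⁻¹) {v v' : Plane → ℝ}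
    (hv : Bdd (volume.restrict Ω) v) (hv' : Bdd (volume.restrict Ω) v') {B ρ : ℝ} (hB : 0 < B)
    (hρ : 0 < ρ) (hBv : ∀ᵐ y ∂(volume.restrict Ω), |v y - v' y| ≤ B)
    (hρv : ∫ y in Ω, |v y - v' y| ≤ ρ) {x : Plane} (hx : x ∈ Ω) :
    ‖(∫ y in Ω, v y • K x y) - ∫ y in Ω, v' y • K x y‖ ≤
      C * (2 * Real.sqrt (2 * Real.pi * B * ρ)) := by
  have hne : ∀ᵐ y ∂(volume.restrict Ω), y ∈ Ω ∧ y ≠ x := by
    have h1 : ∀ᵐ y ∂(volume.restrict Ω), y ≠ x := by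
      have : ∀ᵐ y ∂(volume : Measure Plane), y ≠ x := by
        rw [ae_iff]
        simp
      exact ae_restrict_of_ae this
    filter_upwards [ae_restrict_mem hΩ.measurableSet, h1] with y a b using ⟨a, b⟩
  have hint : ∀ k : Plane → ℝ, Bdd (volume.restrict Ω) k →
      Integrable (fun y => k y • K x y) (volume.restrict Ω) := by
    intro k hk
    obtain ⟨hk1, D, hD⟩ := hk
    refine ((inv_integrableOn hb x).const_mul (D * C)).mono'
      (hk1.smul (hKm x hx)).aestronglyMeasurable ?_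
    filter_upwards [hD, hne] with y a1 a2
    rw [norm_smul, Real.norm_eq_abs, mul_assoc]
    exact mul_le_mul a1 (hK x hx y a2.1 a2.2) (norm_nonneg _) ((abs_nonneg _).trans a1)
  rw [← integral_sub (hint v hv) (hint v' hv')]
  obtain ⟨hp1, hp2⟩ := potential_le hb (hv.sub hv').1 hB hρ hBv hρv x
  have hstep : ‖∫ y in Ω, (v y • K x y - v' y • K x y)‖ ≤
      ∫ y in Ω, C * (|v y - v' y| * ‖x - y‖⁻¹) := by
    refine norm_integral_le_of_norm_le (hp1.const_mul C) ?_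
    filter_upwards [hne] with y a2
    rw [← sub_smul, norm_smul, Real.norm_eq_abs]
    have := mul_le_mul_of_nonneg_left (hK x hx y a2.1 a2.2) (abs_nonneg (v y - v' y))
    refine this.trans (le_of_eq ?_)
    ring
  refine hstep.trans ?_
  rw [integral_const_mul]
  exact mul_le_mul_of_nonneg_left hp2 hC

end Pool.MP_dba1af
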