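import Pool.Agent.Lib.MP_dba1af_an.Moment

/-!
# Conservation of the moment of inertia in the unit disc, II
-/

open MeasureTheory Set Metric Filter Topology
open scoped ENNReal InnerProductSpace

namespace Pool.MP_dba1af

/-- A motion of the 2D Euler equation in the unit disc. -/
def DiskMotion (w : ℝ → Plane → ℝ) (Φ : ℝ → Plane → Plane) : Prop :=
  KernelMotion disk diskKernel w Φ

theorem ae_bound {Ω : Set Plane} {u : ℝ → Plane → Plane} {w : ℝ → Plane → ℝ}
    {Φ : ℝ → Plane → Plane} (hw : IsFlow Ω u w Φ) {B : ℝ}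
    (hw0 : ∀ᵐ x ∂(volume.restrict Ω), |w 0 x| ≤ B) {s : ℝ} (hs : 0 ≤ s) :
    ∀ᵐ x ∂(volume.restrict Ω), |w s x| ≤ B := by
  rw [ae_iff]
  have hm : MeasurableSet {x | ¬ |w s x| ≤ B} :=
    (measurableSet_le (hw.bdd s hs).1.abs measurable_const).compl
  rw [← (hw.flow_area s hs).measure_preimage hm.nullMeasurableSet]
  have : ∀ᵐ x ∂(volume.restrict Ω), |w s (Φ s x)| ≤ B := by
    filter_upwards [hw0, hw.transport s hs] with x a1 a2
    rw [a2]
    exact a1
  exact this

private theorem speed {w : ℝ → Plane → ℝ} {Φ : ℝ → Plane → Plane} (hw : DiskMotion w Φ) :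
    ∃ U : ℝ, 0 ≤ U ∧ ∀ s, 0 ≤ s → ∀ y ∈ disk, ‖∫ z in disk, w s z • diskKernel y z‖ ≤ U := by
  obtain ⟨B, hB⟩ := (hw.bdd 0 le_rfl).2
  set V : ℝ := (volume.restrict disk).real univ with hV
  have hV0 : 0 ≤ V := measureReal_nonneg
  refine ⟨Real.pi⁻¹ * (2 * Real.sqrt (2 * Real.pi * (|B| + 1) * ((|B| + 1) * V + 1))),
    by positivity, fun s hs y hy => ?_⟩
  have hbs := ae_bound hw hB hs
  have hle : ∀ᵐ z ∂(volume.restrict disk), |w s z - 0| ≤ |B| + 1 := by
    filter_upwards [hbs] with z hz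
    rw [sub_zero]
    linarith [le_abs_self B]
  have h0 : Bdd (volume.restrict disk) (fun _ => (0 : ℝ)) := bdd_const 0
  have hint : ∫ z in disk, |w s z - 0| ≤ (|B| + 1) * V + 1 := by
    have h1 : ∫ z in disk, |w s z - 0| ≤ ∫ _z in disk, (|B| + 1) := by
      refine integral_mono_ae ?_ (integrable_const _) hle
      exact (Integrable.of_bound ((hw.bdd s hs).sub h0).1.aestronglyMeasurable (|B| + 1)
        (by simpa using hle)).abs
    rw [integral_const, smul_eq_mul] at h1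
    linarith
  have h2 := velocity_close isOpen_disk isBounded_disk (K := diskKernel) (C := Real.pi⁻¹)
    (by positivity) (fun x _ => measurable_diskKernel x)
    (fun x hx z hz hzx => norm_diskKernel_le (mem_disk.1 hx) (mem_disk.1 hz) hzx)
    (hw.bdd s hs) h0 (B := |B| + 1) (ρ := (|B| + 1) * V + 1) (by positivity) (by positivity)
    hle hint hy
  simpa using h2

theorem inner_velocity {v : Plane → ℝ} (hv : Bdd (volume.restrict disk) v) {y : Plane}
    (hy : y ∈ disk) : ⟪y, ∫ z in disk, v z • diskKernel y z⟫_ℝ =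
      ∫ z in disk, ⟪y, diskKernel y z⟫_ℝ * v z := by
  obtain ⟨hv1, D, hD⟩ := hv
  have hne : ∀ᵐ z ∂(volume.restrict disk), z ∈ disk ∧ z ≠ y := by
    have h1 : ∀ᵐ z ∂(volume.restrict disk), z ≠ y := by
      have : ∀ᵐ z ∂(volume : Measure Plane), z ≠ y := by
        rw [ae_iff]
        simp
      exact ae_restrict_of_ae this
    filter_upwards [ae_restrict_mem isOpen_disk.measurableSet, h1] with z a b using ⟨a, b⟩
  have hint : Integrable (fun z => v z • diskKernel y z) (volume.restrict disk) := by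
    refine ((inv_integrableOn isBounded_disk y).const_mul (D * Real.pi⁻¹)).mono'
      (hv1.smul (measurable_diskKernel y)).aestronglyMeasurable ?_
    filter_upwards [hD, hne] with z a1 a2
    rw [norm_smul, Real.norm_eq_abs, mul_assoc]
    exact mul_le_mul a1 (norm_diskKernel_le (mem_disk.1 hy) (mem_disk.1 a2.1) a2.2)
      (norm_nonneg _) ((abs_nonneg _).trans a1)
  rw [← integral_inner hint]
  refine integral_congr_ae (Eventually.of_forall fun z => ?_)
  show ⟪y, v z • diskKernel y z⟫_ℝ = ⟪y, diskKernel y z⟫_ℝ * v z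
  rw [inner_smul_right]
  ring

private theorem measurable_pair' : Measurable fun p : Plane × Plane => diskKernel p.1 p.2 := by
  unfold diskKernel
  have hrot : Continuous rot := by
    unfold rot
    fun_prop
  have h1 : Measurable fun p : Plane × Plane => (‖p.1 - p.2‖ ^ 2)⁻¹ := by fun_prop
  have h2 : Measurable fun p : Plane × Plane => rot (p.1 - p.2) :=
    (hrot.comp (continuous_fst.sub continuous_snd)).measurable
  have h3 : Measurable fun p : Plane × Plane =>
      (1 - 2 * ⟪p.1, p.2⟫_ℝ + ‖p.1‖ ^ 2 * ‖p.2‖ ^ 2)⁻¹ := by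
    have : Continuous fun p : Plane × Plane =>
        1 - 2 * ⟪p.1, p.2⟫_ℝ + ‖p.1‖ ^ 2 * ‖p.2‖ ^ 2 := by fun_prop
    exact this.measurable.inv
  have h4 : Measurable fun p : Plane × Plane => rot (‖p.2‖ ^ 2 • p.1 - p.2) := by
    have : Continuous fun p : Plane × Plane => ‖p.2‖ ^ 2 • p.1 - p.2 := by fun_prop
    exact (hrot.comp this).measurable
  exact ((h1.smul h2).sub (h3.smul h4)).const_smul ((2 * Real.pi)⁻¹ : ℝ)

private theorem torque_zero_lagrangian {w : ℝ → Plane → ℝ} {Φ : ℝ → Plane → Plane}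
    (hw : DiskMotion w Φ) {t : ℝ} (ht : 0 ≤ t) :
    ∫ x in disk, (2 * ⟪Φ t x, ∫ z in disk, w t z • diskKernel (Φ t x) z⟫_ℝ) * w 0 x = 0 := by
  have hwt := hw.bdd t ht
  set h : Plane → ℝ := fun y => ∫ z in disk, ⟪y, diskKernel y z⟫_ℝ * w t z with hh
  have hm : Measurable fun p : Plane × Plane => ⟪p.1, diskKernel p.1 p.2⟫_ℝ * w t p.2 :=
    (measurable_fst.inner measurable_pair').mul (hwt.1.comp measurable_snd)
  have hhm : StronglyMeasurable h := hm.stronglyMeasurable.integral_prod_right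
  have e1 : ∫ x in disk, (2 * ⟪Φ t x, ∫ z in disk, w t z • diskKernel (Φ t x) z⟫_ℝ) * w 0 x =
      ∫ x in disk, 2 * (h (Φ t x) * w t (Φ t x)) := by
    refine integral_congr_ae ?_
    filter_upwards [hw.transport t ht, ae_restrict_mem isOpen_disk.measurableSet] with x a1 a2
    rw [inner_velocity hwt ((hw.flow_bij t ht).mapsTo a2), a1]
    simp only [hh]
    ring
  have e2 : ∫ x in disk, 2 * (h (Φ t x) * w t (Φ t x)) = ∫ y in disk, 2 * (h y * w t y) := by
    have hmf : Measurable fun y => 2 * (h y * w t y) := (hhm.measurable.mul hwt.1).const_mul 2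
    have := integral_map (μ := volume.restrict disk) (hw.flow_area t ht).measurable.aemeasurable
      (f := fun y => 2 * (h y * w t y))
      (by rw [(hw.flow_area t ht).map_eq]; exact hmf.aestronglyMeasurable)
    rw [(hw.flow_area t ht).map_eq] at this
    exact this.symm
  rw [e1, e2, integral_const_mul, torque_zero hwt, mul_zero]

/-- The moment of inertia `∫ |x|² w(t, x) dx` is conserved. -/
theorem inertia {w : ℝ → Plane → ℝ} {Φ : ℝ → Plane → Plane} (hw : DiskMotion w Φ) {t : ℝ}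
    (ht : 0 ≤ t) :
    ∫ x in disk, ‖Φ t x‖ ^ 2 * w 0 x = ∫ x in disk, ‖x‖ ^ 2 * w 0 x := by
  obtain ⟨U, hU0, hU⟩ := speed hw
  obtain ⟨B, hB⟩ := (hw.bdd 0 le_rfl).2
  set μ : Measure Plane := volume.restrict disk with hμ
  set J : ℝ → ℝ := fun s => ∫ x, ‖Φ s x‖ ^ 2 * w 0 x ∂μ with hJ
  have hder : ∀ s, 0 ≤ s → ∀ x ∈ disk, HasDerivWithinAt (fun r => ‖Φ r x‖ ^ 2)
      (2 * ⟪Φ s x, ∫ z in disk, w s z • diskKernel (Φ s x) z⟫_ℝ) (Ici 0) s :=
    fun s hs x hx => (hw.flow_ode s hs x hx).norm_sq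
  have hlip : ∀ x ∈ disk, ∀ s, 0 ≤ s → ∀ r, 0 ≤ r →
      |‖Φ r x‖ ^ 2 - ‖Φ s x‖ ^ 2| ≤ 2 * U * |r - s| := by
    intro x hx s hs r hr
    have := (convex_Ici (0 : ℝ)).norm_image_sub_le_of_norm_hasDerivWithin_le
      (f := fun r => ‖Φ r x‖ ^ 2) (C := 2 * U) (fun s hs => hder s hs x hx) (fun s hs => ?_)
      (show s ∈ Ici (0 : ℝ) from hs) (show r ∈ Ici (0 : ℝ) from hr)
    · simpa [Real.norm_eq_abs] using this
    · have hm : Φ s x ∈ disk := (hw.flow_bij s hs).mapsTo hx
      rw [norm_mul, Real.norm_eq_abs, Real.norm_eq_abs, abs_two]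
      have h1 := abs_real_inner_le_norm (Φ s x) (∫ z in disk, w s z • diskKernel (Φ s x) z)
      have h2 := hU s hs _ hm
      have h3 : ‖Φ s x‖ * ‖∫ z in disk, w s z • diskKernel (Φ s x) z‖ ≤ 1 * U :=
        mul_le_mul (mem_disk.1 hm).le h2 (norm_nonneg _) zero_le_one
      linarith
  have hmeas : ∀ s, 0 ≤ s → Measurable fun x => ‖Φ s x‖ ^ 2 * w 0 x := fun s hs =>
    ((hw.flow_area s hs).measurable.norm.pow_const 2).mul (hw.bdd 0 le_rfl).1
  have hdisk : ∀ᵐ x ∂μ, x ∈ disk := ae_restrict_mem isOpen_disk.measurableSet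
  have hintg : ∀ s, 0 ≤ s → Integrable (fun x => ‖Φ s x‖ ^ 2 * w 0 x) μ := by
    intro s hs
    refine Integrable.of_bound (hmeas s hs).aestronglyMeasurable |B| ?_
    filter_upwards [hdisk, hB] with x a1 a2
    have hm : Φ s x ∈ disk := (hw.flow_bij s hs).mapsTo a1
    have h1 : ‖Φ s x‖ ^ 2 ≤ 1 := pow_le_one₀ (norm_nonneg _) (mem_disk.1 hm).le
    rw [norm_mul, Real.norm_eq_abs, Real.norm_eq_abs, abs_of_nonneg (sq_nonneg _)]
    calc ‖Φ s x‖ ^ 2 * |w 0 x| ≤ 1 * |B| :=
          mul_le_mul h1 (a2.trans (le_abs_self B)) (abs_nonneg _) zero_le_one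
      _ = |B| := one_mul _
  have hJlip : ∀ s, 0 ≤ s → ∀ r, 0 ≤ r → |J r - J s| ≤ 2 * U * |B| * μ.real univ * |r - s| := by
    intro s hs r hr
    have e : J r - J s = ∫ x, (‖Φ r x‖ ^ 2 * w 0 x - ‖Φ s x‖ ^ 2 * w 0 x) ∂μ :=
      (integral_sub (hintg r hr) (hintg s hs)).symm
    rw [e]
    have h1 : ‖∫ x, (‖Φ r x‖ ^ 2 * w 0 x - ‖Φ s x‖ ^ 2 * w 0 x) ∂μ‖ ≤
        (2 * U * |r - s| * |B|) * μ.real univ := by
      refine norm_integral_le_of_norm_le_const ?_
      filter_upwards [hdisk, hB] with x a1 a2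
      rw [← sub_mul, norm_mul, Real.norm_eq_abs, Real.norm_eq_abs]
      exact mul_le_mul (hlip x a1 s hs r hr) (a2.trans (le_abs_self B)) (abs_nonneg _)
        (by positivity)
    rw [Real.norm_eq_abs] at h1
    refine h1.trans (le_of_eq ?_)
    ring
  have hright : ∀ s ∈ Ico 0 t, HasDerivWithinAt J 0 (Ici s) s := by
    intro s hs
    have hs0 : 0 ≤ s := hs.1
    rw [← hasDerivWithinAt_Ioi_iff_Ici, hasDerivWithinAt_iff_tendsto_slope'
      (show s ∉ Ioi s from lt_irrefl s)]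
    have hlim := torque_zero_lagrangian hw hs0
    rw [← hlim]
    have hslope : ∀ᶠ r in 𝓝[>] s, slope J s r =
        ∫ x, (r - s)⁻¹ * (‖Φ r x‖ ^ 2 - ‖Φ s x‖ ^ 2) * w 0 x ∂μ := by
      filter_upwards [self_mem_nhdsWithin] with r hr
      have hr0 : 0 ≤ r := hs0.trans (le_of_lt hr)
      rw [slope_def_field]
      have e : J r - J s = ∫ x, (‖Φ r x‖ ^ 2 * w 0 x - ‖Φ s x‖ ^ 2 * w 0 x) ∂μ :=
        (integral_sub (hintg r hr0) (hintg s hs0)).symm
      rw [e, div_eq_inv_mul, ← integral_const_mul]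
      refine integral_congr_ae (Eventually.of_forall fun x => ?_)
      ring
    refine Tendsto.congr' (hslope.mono fun _ h => h.symm) ?_
    refine tendsto_integral_filter_of_dominated_convergence (fun _ => 2 * U * |B|) ?_ ?_
      (integrable_const _) ?_
    · filter_upwards [self_mem_nhdsWithin] with r hr
      have hr0 : 0 ≤ r := hs0.trans (le_of_lt hr)
      exact ((((hw.flow_area r hr0).measurable.norm.pow_const 2).sub
        ((hw.flow_area s hs0).measurable.norm.pow_const 2)).const_mul _).mul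
        (hw.bdd 0 le_rfl).1 |>.aestronglyMeasurable
    · filter_upwards [self_mem_nhdsWithin] with r hr
      have hr0 : 0 ≤ r := hs0.trans (le_of_lt hr)
      have hrs : 0 < r - s := sub_pos.2 hr
      filter_upwards [hdisk, hB] with x a1 a2
      rw [norm_mul, norm_mul, Real.norm_eq_abs, Real.norm_eq_abs, Real.norm_eq_abs, abs_inv,
        abs_of_pos hrs]
      have h1 := hlip x a1 s hs0 r hr0
      rw [abs_of_pos hrs] at h1
      have h2 : (r - s)⁻¹ * |‖Φ r x‖ ^ 2 - ‖Φ s x‖ ^ 2| ≤ 2 * U := by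
        rw [inv_mul_le_iff₀ hrs]
        linarith
      exact mul_le_mul h2 (a2.trans (le_abs_self B)) (abs_nonneg _) (by positivity)
    · filter_upwards [hdisk] with x hx
      have h1 := (hder s hs0 x hx).mono (Ioi_subset_Ici hs0 : Ioi s ⊆ Ici 0)
      rw [hasDerivWithinAt_iff_tendsto_slope' (show s ∉ Ioi s from lt_irrefl s)] at h1
      refine (h1.mul_const (w 0 x)).congr fun r => ?_
      rw [slope_def_field]
      ring
  have hcont : ContinuousOn J (Icc 0 t) := by
    have hC : 0 ≤ 2 * U * |B| * μ.real univ := by positivity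
    have : LipschitzOnWith ⟨2 * U * |B| * μ.real univ, hC⟩ J (Icc 0 t) := by
      refine LipschitzOnWith.of_dist_le_mul fun r hr s hs => ?_
      rw [Real.dist_eq, Real.dist_eq]
      exact hJlip s hs.1 r hr.1
    exact this.continuousOn
  have hfin := constant_of_has_deriv_right_zero hcont hright t ⟨ht, le_rfl⟩
  have h0 : J 0 = ∫ x, ‖x‖ ^ 2 * w 0 x ∂μ := by
    refine integral_congr_ae ?_
    filter_upwards [hdisk] with x hx
    rw [hw.flow_zero x hx]
  rw [← h0]
  exact hfin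

end Pool.MP_dba1af
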