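import Pool.Agent.Lib.MP_dba1af_an.Disk

/-!
# Conservation of the moment of inertia in the unit disc
-/

open MeasureTheory Set Metric Filter Topology
open scoped ENNReal InnerProductSpace

namespace Pool.MP_dba1af

/-- The unit disc. -/
def disk : Set Plane := ball 0 1

theorem isOpen_disk : IsOpen disk := isOpen_ball

theorem isBounded_disk : Bornology.IsBounded disk := isBounded_ball

theorem mem_disk {x : Plane} : x ∈ disk ↔ ‖x‖ < 1 := by simp [disk]

instance finite_disk : IsFiniteMeasure (volume.restrict disk) :=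
  ⟨by rw [Measure.restrict_apply_univ]; exact isBounded_disk.measure_lt_top⟩

private theorem measurable_pair : Measurable fun p : Plane × Plane => diskKernel p.1 p.2 := by
  unfold diskKernel
  have hrot : Continuous rot := by
    unfold rot
    fun_prop
  have h1 : Measurable fun p : Plane × Plane => (‖p.1 - p.2‖ ^ 2)⁻¹ := by fun_prop
  have h2 : Measurable fun p : Plane × Plane => rot (p.1 - p.2) :=
    (hrot.comp (continuous_fst.sub continuous_snd)).measurable
  have h3 : Measurable fun p : Plane × Plane =>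
      (1 - 2 * ⟪p.1, p.2⟫_ℝ + ‖p.1‖ ^ 2 * ‖p.2‖ ^ 2)⁻¹ := by
    have : Continuous fun p : Plane × Plane =>
        1 - 2 * ⟪p.1, p.2⟫_ℝ + ‖p.1‖ ^ 2 * ‖p.2‖ ^ 2 := by fun_prop
    exact this.measurable.inv
  have h4 : Measurable fun p : Plane × Plane => rot (‖p.2‖ ^ 2 • p.1 - p.2) := by
    have : Continuous fun p : Plane × Plane => ‖p.2‖ ^ 2 • p.1 - p.2 := by fun_prop
    exact (hrot.comp this).measurable
  exact ((h1.smul h2).sub (h3.smul h4)).const_smul ((2 * Real.pi)⁻¹ : ℝ)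

private theorem inner_rot (x y : Plane) : ⟪x, rot y⟫_ℝ = x 1 * y 0 - x 0 * y 1 := by
  simp [rot, PiLp.inner_apply, Fin.sum_univ_two]
  ring

theorem inner_kernel (x y : Plane) : ⟪x, diskKernel x y⟫_ℝ =
    (2 * Real.pi)⁻¹ * ((x 0 * y 1 - x 1 * y 0) * ((‖x - y‖ ^ 2)⁻¹ -
      (1 - 2 * ⟪x, y⟫_ℝ + ‖x‖ ^ 2 * ‖y‖ ^ 2)⁻¹)) := by
  unfold diskKernel
  rw [inner_smul_right, inner_sub_right, inner_smul_right, inner_smul_right, inner_rot, inner_rot]
  simp only [PiLp.sub_apply, PiLp.smul_apply, smul_eq_mul]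
  ring

private theorem kernel_antisymm (x y : Plane) :
    ⟪x, diskKernel x y⟫_ℝ = - ⟪y, diskKernel y x⟫_ℝ := by
  rw [inner_kernel, inner_kernel, norm_sub_rev y x, real_inner_comm x y,
    mul_comm (‖y‖ ^ 2) (‖x‖ ^ 2)]
  ring

private theorem kernel_le {x y : Plane} (hx : x ∈ disk) (hy : y ∈ disk) :
    |⟪x, diskKernel x y⟫_ℝ| ≤ Real.pi⁻¹ * ‖x - y‖⁻¹ := by
  rw [mem_disk] at hx hy
  by_cases hxy : y = x
  · subst hxy
    rw [inner_kernel]
    have : y 0 * y 1 - y 1 * y 0 = 0 := by ring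
    rw [this]
    simp
  · refine (abs_real_inner_le_norm _ _).trans ?_
    have h1 := norm_diskKernel_le hx hy hxy
    have h2 : ‖x‖ * ‖diskKernel x y‖ ≤ 1 * ‖diskKernel x y‖ :=
      mul_le_mul_of_nonneg_right hx.le (norm_nonneg _)
    linarith

private theorem inv_integrable_prod : Integrable (fun p : Plane × Plane => ‖p.1 - p.2‖⁻¹)
    ((volume.restrict disk).prod (volume.restrict disk)) := by
  have hm : Measurable fun p : Plane × Plane => ‖p.1 - p.2‖⁻¹ := by fun_prop
  rw [integrable_prod_iff hm.aestronglyMeasurable]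
  refine ⟨Eventually.of_forall fun x => inv_integrableOn isBounded_disk x, ?_⟩
  refine Integrable.of_bound
    (hm.aestronglyMeasurable.norm.integral_prod_right') (4 * Real.pi) ?_
  filter_upwards [ae_restrict_mem isOpen_disk.measurableSet] with x hx
  have hnn : 0 ≤ ∫ y in disk, ‖‖x - y‖⁻¹‖ := integral_nonneg fun y => norm_nonneg _
  rw [Real.norm_of_nonneg hnn]
  have hsub : disk ⊆ ball x 2 := by
    intro y hy
    rw [mem_disk] at hx hy
    rw [mem_ball, dist_eq_norm]
    have := norm_sub_le y x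
    linarith
  have h1 : ∫ y in disk, ‖‖x - y‖⁻¹‖ = ∫ y in disk, ‖x - y‖⁻¹ := by
    refine integral_congr_ae (Eventually.of_forall fun y => ?_)
    simp
  rw [h1]
  have h2 := setIntegral_mono_set (inv_integrableOn_ball x 2)
    (Eventually.of_forall fun y => inv_nonneg.2 (norm_nonneg (x - y))) hsub.eventuallyLE
  rw [integral_inv_ball x (by norm_num)] at h2
  linarith

/-- The torque vanishes. -/
theorem torque_zero {v : Plane → ℝ} (hv : Bdd (volume.restrict disk) v) :
    ∫ x in disk, (∫ y in disk, ⟪x, diskKernel x y⟫_ℝ * v y) * v x = 0 := by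
  obtain ⟨hv1, B, hB⟩ := hv
  set μ : Measure Plane := volume.restrict disk with hμ
  have hkm : Measurable fun p : Plane × Plane => ⟪p.1, diskKernel p.1 p.2⟫_ℝ :=
    measurable_fst.inner measurable_pair
  have hint : Integrable (Function.uncurry fun x y : Plane =>
      ⟪x, diskKernel x y⟫_ℝ * v y * v x) (μ.prod μ) := by
    refine (inv_integrable_prod.const_mul (Real.pi⁻¹ * |B| ^ 2)).mono'
      ((hkm.mul (hv1.comp measurable_snd)).mul (hv1.comp measurable_fst)).aestronglyMeasurable ?_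
    have hd : ∀ᵐ x ∂μ, x ∈ disk := ae_restrict_mem isOpen_disk.measurableSet
    filter_upwards [Measure.quasiMeasurePreserving_fst.ae hd,
      Measure.quasiMeasurePreserving_snd.ae hd, Measure.quasiMeasurePreserving_fst.ae hB,
      Measure.quasiMeasurePreserving_snd.ae hB] with p a1 a2 a3 a4
    simp only [Function.uncurry, norm_mul, Real.norm_eq_abs]
    have h1 := kernel_le a1 a2
    have h3 := a3.trans (le_abs_self B)
    have h4 := a4.trans (le_abs_self B)
    have h0 : 0 ≤ Real.pi⁻¹ * ‖p.1 - p.2‖⁻¹ := (abs_nonneg _).trans h1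
    calc |⟪p.1, diskKernel p.1 p.2⟫_ℝ| * |v p.2| * |v p.1|
        ≤ (Real.pi⁻¹ * ‖p.1 - p.2‖⁻¹) * |B| * |B| := by gcongr
      _ = Real.pi⁻¹ * |B| ^ 2 * ‖p.1 - p.2‖⁻¹ := by ring
  have e1 : ∫ x, (∫ y, ⟪x, diskKernel x y⟫_ℝ * v y ∂μ) * v x ∂μ =
      ∫ x, ∫ y, ⟪x, diskKernel x y⟫_ℝ * v y * v x ∂μ ∂μ := by
    refine integral_congr_ae (Eventually.of_forall fun x => ?_)
    exact (integral_mul_const _ _).symm
  have e2 := integral_integral_swap hint
  have e3 : ∫ y, ∫ x, ⟪x, diskKernel x y⟫_ℝ * v y * v x ∂μ ∂μ =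
      - ∫ x, ∫ y, ⟪x, diskKernel x y⟫_ℝ * v y * v x ∂μ ∂μ := by
    rw [← integral_neg]
    refine integral_congr_ae (Eventually.of_forall fun y => ?_)
    show ∫ x, ⟪x, diskKernel x y⟫_ℝ * v y * v x ∂μ = - ∫ z, ⟪y, diskKernel y z⟫_ℝ * v z * v y ∂μ
    rw [← integral_neg]
    refine integral_congr_ae (Eventually.of_forall fun x => ?_)
    show ⟪x, diskKernel x y⟫_ℝ * v y * v x = -(⟪y, diskKernel y x⟫_ℝ * v x * v y)
    rw [kernel_antisymm x y]
    ring
  rw [e1]
  linarith

end Pool.MP_dba1af
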