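import Mathlib

/-!
# Rearrangement invariant norms and motions carried by measure preserving maps

`Bdd μ f`: `f` is measurable and essentially bounded.  `IsRINorm μ N`: `N` is a norm on the bounded
functions which is monotone in the distribution function (a rearrangement invariant lattice norm).
`EquivSup μ N`: `N` is equivalent to the sup norm.
-/

open MeasureTheory Set

namespace Pool.MP_dba1af

variable {α : Type*} [MeasurableSpace α]

/-- `f` is measurable and essentially bounded, an element of `L^∞(μ)`. -/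
def Bdd (μ : Measure α) (f : α → ℝ) : Prop :=
  Measurable f ∧ ∃ C : ℝ, ∀ᵐ x ∂μ, |f x| ≤ C

/-- `N` is a rearrangement invariant norm on `L^∞(μ)`, in the sense of Bennett and Sharpley: a norm
with `N f ≤ N g` whenever `μ {|f| > a} ≤ μ {|g| > a}` for all `a ≥ 0`, which dominates the norm
of `L^1(μ)`. -/
structure IsRINorm (μ : Measure α) (N : (α → ℝ) → ℝ) : Prop where
  nonneg : ∀ f, Bdd μ f → 0 ≤ N f
  add_le : ∀ f g, Bdd μ f → Bdd μ g → N (fun x => f x + g x) ≤ N f + N g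
  smul : ∀ (c : ℝ) (f : α → ℝ), Bdd μ f → N (fun x => c * f x) = |c| * N f
  mono : ∀ f g, Bdd μ f → Bdd μ g →
    (∀ a : ℝ, 0 ≤ a → μ {x | a < |f x|} ≤ μ {x | a < |g x|}) → N f ≤ N g
  pos : ∀ f, Bdd μ f → N f = 0 → ∀ᵐ x ∂μ, f x = 0
  l1 : ∃ C : ℝ, ∀ f, Bdd μ f → ∫ x, |f x| ∂μ ≤ C * N f

/-- `N` dominates the essential supremum, so that it is equivalent to the norm of `L^∞(μ)`. -/
def EquivSup (μ : Measure α) (N : (α → ℝ) → ℝ) : Prop :=
  ∃ c : ℝ, 0 < c ∧ ∀ f, Bdd μ f → ∀ᵐ x ∂μ, c * |f x| ≤ N f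

/-- The motion `w` is carried by the measure preserving maps `Φ t`. -/
structure Carried (μ : Measure α) (w : ℝ → α → ℝ) (Φ : ℝ → α → α) : Prop where
  bdd : ∀ t, 0 ≤ t → Bdd μ (w t)
  meas : ∀ t, 0 ≤ t → MeasurePreserving (Φ t) μ μ
  transport : ∀ t, 0 ≤ t → ∀ᵐ x ∂μ, w t (Φ t x) = w 0 x

/-- Lyapunov stability of `ws` in the norm `N`, for the motions `(w, Φ)` in the family `S`. -/
def StableIn (S : (ℝ → α → ℝ) → (ℝ → α → α) → Prop) (N : (α → ℝ) → ℝ) (ws : α → ℝ) : Prop :=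
  ∀ ε : ℝ, 0 < ε → ∃ δ : ℝ, 0 < δ ∧ ∀ w Φ, S w Φ → N (fun x => w 0 x - ws x) < δ →
    ∀ t, 0 ≤ t → N (fun x => w t x - ws x) < ε

/-- Lyapunov stability in `N` for initial data in any given ball of `L^∞(μ)`. -/
def BallStableIn (μ : Measure α) (S : (ℝ → α → ℝ) → (ℝ → α → α) → Prop) (N : (α → ℝ) → ℝ)
    (ws : α → ℝ) : Prop :=
  ∀ K ε : ℝ, 0 < ε → ∃ δ : ℝ, 0 < δ ∧ ∀ w Φ, S w Φ → (∀ᵐ x ∂μ, |w 0 x| ≤ K) →
    N (fun x => w 0 x - ws x) < δ → ∀ t, 0 ≤ t → N (fun x => w t x - ws x) < ε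

/-- Lyapunov stability in `L^∞(μ)`. -/
def SupStable (μ : Measure α) (S : (ℝ → α → ℝ) → (ℝ → α → α) → Prop) (ws : α → ℝ) : Prop :=
  ∀ ε : ℝ, 0 < ε → ∃ δ : ℝ, 0 < δ ∧ ∀ w Φ, S w Φ → (∀ᵐ x ∂μ, |w 0 x - ws x| ≤ δ) →
    ∀ t, 0 ≤ t → ∀ᵐ x ∂μ, |w t x - ws x| ≤ ε

/-- The values of `ws` are nearly conserved along the trajectories of all motions near `ws`. -/
def ParticleStable (μ : Measure α) (S : (ℝ → α → ℝ) → (ℝ → α → α) → Prop) (ws : α → ℝ) : Prop :=
  ∀ ε : ℝ, 0 < ε → ∃ δ : ℝ, 0 < δ ∧ ∀ w Φ, S w Φ → (∀ᵐ x ∂μ, |w 0 x - ws x| ≤ δ) →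
    ∀ t, 0 ≤ t → ∀ᵐ x ∂μ, |ws (Φ t x) - ws x| ≤ ε

theorem Bdd.sub {μ : Measure α} {f g : α → ℝ} (hf : Bdd μ f) (hg : Bdd μ g) :
    Bdd μ (fun x => f x - g x) := by
  obtain ⟨hf1, C, hC⟩ := hf
  obtain ⟨hg1, D, hD⟩ := hg
  refine ⟨hf1.sub hg1, C + D, ?_⟩
  filter_upwards [hC, hD] with x h1 h2
  exact (abs_sub _ _).trans (add_le_add h1 h2)

theorem Bdd.add {μ : Measure α} {f g : α → ℝ} (hf : Bdd μ f) (hg : Bdd μ g) :
    Bdd μ (fun x => f x + g x) := by
  obtain ⟨hf1, C, hC⟩ := hf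
  obtain ⟨hg1, D, hD⟩ := hg
  refine ⟨hf1.add hg1, C + D, ?_⟩
  filter_upwards [hC, hD] with x h1 h2
  exact (abs_add_le _ _).trans (add_le_add h1 h2)

theorem Bdd.smul {μ : Measure α} {f : α → ℝ} (c : ℝ) (hf : Bdd μ f) :
    Bdd μ (fun x => c * f x) := by
  obtain ⟨hf1, C, hC⟩ := hf
  refine ⟨hf1.const_mul c, |c| * C, ?_⟩
  filter_upwards [hC] with x h1
  rw [abs_mul]
  exact mul_le_mul_of_nonneg_left h1 (abs_nonneg c)

theorem bdd_const {μ : Measure α} (c : ℝ) : Bdd μ (fun _ => c) :=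
  ⟨measurable_const, |c|, Filter.Eventually.of_forall fun _ => le_rfl⟩

theorem bdd_ind {μ : Measure α} {E : Set α} (hE : MeasurableSet E) :
    Bdd μ (E.indicator fun _ => (1 : ℝ)) := by
  refine ⟨measurable_const.indicator hE, 1, Filter.Eventually.of_forall fun x => ?_⟩
  by_cases hx : x ∈ E <;> simp [hx]

theorem Bdd.comp {μ : Measure α} {f : α → ℝ} (hf : Bdd μ f) {T : α → α}
    (hT : MeasurePreserving T μ μ) : Bdd μ (fun x => f (T x)) := by
  obtain ⟨hf1, C, hC⟩ := hf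
  exact ⟨hf1.comp hT.measurable, C, hT.quasiMeasurePreserving.ae hC⟩

namespace IsRINorm

variable {μ : Measure α} {N N1 N2 : (α → ℝ) → ℝ}

theorem mono_ae (h : IsRINorm μ N) {f g : α → ℝ} (hf : Bdd μ f) (hg : Bdd μ g)
    (hfg : ∀ᵐ x ∂μ, |f x| ≤ |g x|) : N f ≤ N g := by
  refine h.mono f g hf hg fun a _ => measure_mono_ae ?_
  filter_upwards [hfg] with x hx hx2
  exact lt_of_lt_of_le hx2 hx

theorem congr_ae (h : IsRINorm μ N) {f g : α → ℝ} (hf : Bdd μ f) (hg : Bdd μ g)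
    (hfg : ∀ᵐ x ∂μ, f x = g x) : N f = N g := by
  refine le_antisymm (h.mono_ae hf hg ?_) (h.mono_ae hg hf ?_)
  · filter_upwards [hfg] with x hx
    rw [hx]
  · filter_upwards [hfg] with x hx
    rw [hx]

theorem comp (h : IsRINorm μ N) {f : α → ℝ} (hf : Bdd μ f) {T : α → α}
    (hT : MeasurePreserving T μ μ) : N (fun x => f (T x)) = N f := by
  have key : ∀ a : ℝ, μ {x | a < |f (T x)|} = μ {x | a < |f x|} := by
    intro a
    have hm : MeasurableSet {x | a < |f x|} := measurableSet_lt measurable_const hf.1.abs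
    exact hT.measure_preimage hm.nullMeasurableSet
  exact le_antisymm (h.mono _ _ (hf.comp hT) hf fun a _ => (key a).le)
    (h.mono _ _ hf (hf.comp hT) fun a _ => (key a).ge)

theorem sub_comm (h : IsRINorm μ N) {f g : α → ℝ} (hf : Bdd μ f) (hg : Bdd μ g) :
    N (fun x => f x - g x) = N (fun x => g x - f x) := by
  refine le_antisymm (h.mono_ae (hf.sub hg) (hg.sub hf) ?_) (h.mono_ae (hg.sub hf) (hf.sub hg) ?_)
  · exact Filter.Eventually.of_forall fun x => (abs_sub_comm _ _).le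
  · exact Filter.Eventually.of_forall fun x => (abs_sub_comm _ _).le

theorem ind_mono (h : IsRINorm μ N) {E F : Set α} (hE : MeasurableSet E) (hF : MeasurableSet F)
    (hEF : μ E ≤ μ F) :
    N (E.indicator fun _ => (1 : ℝ)) ≤ N (F.indicator fun _ => (1 : ℝ)) := by
  refine h.mono _ _ (bdd_ind hE) (bdd_ind hF) fun a ha => ?_
  have key : ∀ G : Set α, {x | a < |G.indicator (fun _ => (1 : ℝ)) x|} = if a < 1 then G else ∅ := by
    intro G
    ext x
    by_cases hx : x ∈ G <;> by_cases h1 : a < 1 <;> simp [hx, h1, ha]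
  rw [key, key]
  split_ifs
  · exact hEF
  · exact le_rfl

/-- Small sets for `N1` are small for `N2`, if `N2` is not equivalent to the sup norm. -/
theorem ind_small (h1 : IsRINorm μ N1) (h2 : IsRINorm μ N2) (hs : ¬ EquivSup μ N2) {ε : ℝ}
    (hε : 0 < ε) : ∃ κ : ℝ, 0 < κ ∧ ∀ E : Set α, MeasurableSet E →
      N1 (E.indicator fun _ => (1 : ℝ)) < κ → N2 (E.indicator fun _ => (1 : ℝ)) < ε := by
  have hex : ∃ f, Bdd μ f ∧ ¬ ∀ᵐ x ∂μ, ε / 2 * |f x| ≤ N2 f := by
    by_contra hno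
    push Not at hno
    exact hs ⟨ε / 2, by positivity, hno⟩
  obtain ⟨f, hf, hnot⟩ := hex
  set a : ℝ := N2 f / (ε / 2) with ha
  have ha0 : 0 ≤ a := div_nonneg (h2.nonneg f hf) (by positivity)
  have hNf : N2 f = ε / 2 * a := by rw [ha]; field_simp
  set E0 : Set α := {x | a < |f x|} with hE0
  have hE0m : MeasurableSet E0 := measurableSet_lt measurable_const hf.1.abs
  have hE0pos : μ E0 ≠ 0 := by
    intro h0
    apply hnot
    rw [ae_iff]
    refine measure_mono_null (fun x hx => ?_) h0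
    simp only [mem_ofPred_eq, not_le] at hx
    rw [hNf] at hx
    exact lt_of_mul_lt_mul_left hx (by positivity)
  have hapos : 0 < a := by
    rcases ha0.lt_or_eq with h | h
    · exact h
    · exfalso
      have hN0 : N2 f = 0 := by rw [hNf, ← h]; ring
      apply hE0pos
      have := h2.pos f hf hN0
      rw [ae_iff] at this
      refine measure_mono_null (fun x hx => ?_) this
      intro h0
      have hx' : a < |f x| := hx
      rw [h0, abs_zero] at hx'
      linarith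
  have hind := bdd_ind (μ := μ) hE0m
  have hN2E : N2 (E0.indicator fun _ => (1 : ℝ)) ≤ ε / 2 := by
    have hle : N2 (fun x => a * E0.indicator (fun _ => (1 : ℝ)) x) ≤ N2 f := by
      refine h2.mono_ae (hind.smul a) hf (Filter.Eventually.of_forall fun x => ?_)
      by_cases hx : x ∈ E0
      · have hx' : a < |f x| := hx
        simp only [hx, indicator_of_mem, mul_one]
        rw [abs_of_pos hapos]
        exact hx'.le
      · simp [hx]
    rw [h2.smul a _ hind, abs_of_pos hapos, hNf] at hle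
    have : a * N2 (E0.indicator fun _ => (1 : ℝ)) ≤ a * (ε / 2) := by linarith
    exact le_of_mul_le_mul_left this hapos
  have hκ : 0 < N1 (E0.indicator fun _ => (1 : ℝ)) := by
    rcases (h1.nonneg _ hind).lt_or_eq with h | h
    · exact h
    · exfalso
      apply hE0pos
      have := h1.pos _ hind h.symm
      rw [ae_iff] at this
      refine measure_mono_null (fun x hx => ?_) this
      simp [hx]
  refine ⟨_, hκ, fun E hE hlt => ?_⟩
  have hμ : μ E ≤ μ E0 := by
    by_contra hcon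
    push Not at hcon
    exact absurd (h1.ind_mono hE0m hE hcon.le) (not_le.2 hlt)
  exact lt_of_le_of_lt ((h2.ind_mono hE hE0m hμ).trans hN2E) (by linarith)

/-- On bounded sets of `L^∞` smallness in `N1` implies smallness in `N2`, if `N2` is not equivalent
to the sup norm. -/
theorem small_of_small (h1 : IsRINorm μ N1) (h2 : IsRINorm μ N2) (hs : ¬ EquivSup μ N2)
    {B ε : ℝ} (hB : 0 ≤ B) (hε : 0 < ε) : ∃ η : ℝ, 0 < η ∧ ∀ g : α → ℝ, Measurable g →
      (∀ᵐ x ∂μ, |g x| ≤ B) → N1 g < η → N2 g < ε := by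
  set c0 : ℝ := N2 (fun _ => (1 : ℝ)) with hc0
  have hc0n : 0 ≤ c0 := h2.nonneg _ (bdd_const 1)
  set a : ℝ := ε / (2 * (c0 + 1)) with ha
  have hapos : 0 < a := by positivity
  obtain ⟨κ, hκ, hκ2⟩ := ind_small h1 h2 hs (ε := ε / (2 * (B + 1))) (by positivity)
  refine ⟨a * κ, by positivity, fun g hg hgB hN => ?_⟩
  have hgb : Bdd μ g := ⟨hg, B, hgB⟩
  set E : Set α := {x | a < |g x|} with hE
  have hEm : MeasurableSet E := measurableSet_lt measurable_const hg.abs
  have hind := bdd_ind (μ := μ) hEm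
  have h3 : N1 (E.indicator fun _ => (1 : ℝ)) < κ := by
    have hle : N1 (fun x => a * E.indicator (fun _ => (1 : ℝ)) x) ≤ N1 g := by
      refine h1.mono_ae (hind.smul a) hgb (Filter.Eventually.of_forall fun x => ?_)
      by_cases hx : x ∈ E
      · have hx' : a < |g x| := hx
        simp only [hx, indicator_of_mem, mul_one]
        rw [abs_of_pos hapos]
        exact hx'.le
      · simp [hx]
    rw [h1.smul a _ hind, abs_of_pos hapos] at hle
    exact lt_of_mul_lt_mul_left (lt_of_le_of_lt hle hN) hapos.le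
  have h4 := hκ2 E hEm h3
  have hone := bdd_const (μ := μ) (1 : ℝ)
  have h5 : N2 g ≤ N2 (fun x => a * (1 : ℝ) + B * E.indicator (fun _ => (1 : ℝ)) x) := by
    refine h2.mono_ae hgb ((hone.smul a).add (hind.smul B)) ?_
    filter_upwards [hgB] with x hx
    have hnn : 0 ≤ a * (1 : ℝ) + B * E.indicator (fun _ => (1 : ℝ)) x := by
      by_cases hxE : x ∈ E <;> simp [hxE] <;> positivity
    rw [abs_of_nonneg hnn]
    by_cases hxE : x ∈ E
    · simp only [hxE, indicator_of_mem, mul_one]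
      linarith
    · have : |g x| ≤ a := not_lt.1 hxE
      simp only [hxE, not_false_eq_true, indicator_of_notMem, mul_one, mul_zero, add_zero]
      exact this
  have h6 := h2.add_le (fun _ => a * (1 : ℝ)) (fun x => B * E.indicator (fun _ => (1 : ℝ)) x)
    (hone.smul a) (hind.smul B)
  rw [h2.smul a _ hone, h2.smul B _ hind, abs_of_pos hapos, abs_of_nonneg hB] at h6
  have h7 : a * c0 < ε / 2 := by
    rw [ha, div_mul_eq_mul_div, div_lt_iff₀ (by positivity)]
    nlinarith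
  have h8 : B * N2 (E.indicator fun _ => (1 : ℝ)) ≤ ε / 2 := by
    have : B * N2 (E.indicator fun _ => (1 : ℝ)) ≤ B * (ε / (2 * (B + 1))) :=
      mul_le_mul_of_nonneg_left h4.le hB
    refine this.trans ?_
    rw [mul_div_assoc', div_le_iff₀ (by positivity)]
    nlinarith
  linarith

end IsRINorm

end Pool.MP_dba1af
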