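import Pool.Agent.Lib.MP_dba1af_an.Vortex

/-!
# Radially monotone vortices in the unit disc, II
-/

open MeasureTheory Set Metric Filter Topology
open scoped ENNReal InnerProductSpace

namespace Pool.MP_dba1af

private theorem radial_inner (G : ℝ → ℝ) (x : Plane) :
    ∫ y in disk, ⟪x, diskKernel x y⟫_ℝ * G (‖y‖ ^ 2) = 0 := by
  set R := (ℝ ∙ x).reflection with hR
  have hRx : R x = x := Submodule.reflection_mem_subspace_eq_self (Submodule.mem_span_singleton_self x)
  have hRrot : R (rot x) = - rot x := by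
    refine Submodule.reflection_mem_subspace_orthogonalComplement_eq_neg ?_
    rw [Submodule.mem_orthogonal_singleton_iff_inner_right]
    simp [rot, PiLp.inner_apply, Fin.sum_univ_two]
    ring
  have hRR : ∀ y, R (R y) = y := fun y => Submodule.reflection_reflection _ y
  have hcross : ∀ y : Plane, x 0 * y 1 - x 1 * y 0 = ⟪rot x, y⟫_ℝ := by
    intro y
    simp [rot, PiLp.inner_apply, Fin.sum_univ_two]
    ring
  have hodd : ∀ y : Plane, ⟪x, diskKernel x (R y)⟫_ℝ * G (‖R y‖ ^ 2) =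
      -(⟪x, diskKernel x y⟫_ℝ * G (‖y‖ ^ 2)) := by
    intro y
    have e1 : ‖x - R y‖ = ‖x - y‖ := by
      have : x - R y = R (x - y) := by rw [map_sub, hRx]
      rw [this, R.norm_map]
    have e2 : ⟪x, R y⟫_ℝ = ⟪x, y⟫_ℝ := by
      have := R.inner_map_map x y
      rwa [hRx] at this
    have e3 : ⟪rot x, R y⟫_ℝ = -⟪rot x, y⟫_ℝ := by
      have := R.inner_map_map (rot x) y
      rw [hRrot, inner_neg_left] at this
      linarith
    rw [inner_kernel, inner_kernel, e1, e2, R.norm_map, hcross, hcross, e3]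
    ring
  have hpre : R ⁻¹' disk = disk := by
    ext y
    simp [mem_disk]
  have h1 := (R.measurePreserving).setIntegral_preimage_emb R.toHomeomorph.measurableEmbedding
    (fun y => ⟪x, diskKernel x y⟫_ℝ * G (‖y‖ ^ 2)) disk
  rw [hpre] at h1
  have h2 : ∫ y in disk, ⟪x, diskKernel x (R y)⟫_ℝ * G (‖R y‖ ^ 2) =
      - ∫ y in disk, ⟪x, diskKernel x y⟫_ℝ * G (‖y‖ ^ 2) := by
    rw [← integral_neg]
    exact integral_congr_ae (Eventually.of_forall hodd)
  linarith

private theorem hasFDerivAt_radial {G : ℝ → ℝ} (hG : Differentiable ℝ G) (x : Plane) :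
    HasFDerivAt (fun x : Plane => G (‖x‖ ^ 2))
      (deriv G (‖x‖ ^ 2) • (2 • innerSL ℝ x)) x :=
  (hG _).hasDerivAt.comp_hasFDerivAt x (hasStrictFDerivAt_norm_sq x).hasFDerivAt

theorem bdd_radial {G : ℝ → ℝ} (hG : Continuous G) :
    Bdd (volume.restrict disk) (fun x => G (‖x‖ ^ 2)) := by
  obtain ⟨C, hC⟩ := isCompact_Icc.exists_bound_of_continuousOn (s := Icc (0 : ℝ) 1)
    hG.continuousOn
  refine ⟨hG.measurable.comp (measurable_norm.pow_const 2), C, ?_⟩
  filter_upwards [ae_restrict_mem isOpen_disk.measurableSet] with x hx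
  exact hC _ ⟨sq_nonneg _, pow_le_one₀ (norm_nonneg _) (mem_disk.1 hx).le⟩

theorem disk_real : (volume.restrict disk).real univ = Real.pi := by
  simp [Measure.real, disk, Real.pi_pos.le]

private theorem l1_le {f : Plane → ℝ} (hf : Bdd (volume.restrict disk) f) {A : ℝ}
    (hA : ∫ x in disk, (f x) ^ 2 ≤ A) : ∫ x in disk, |f x| ≤ Real.sqrt (Real.pi * A) := by
  have hf' : Bdd (volume.restrict disk) (fun x => |f x|) := by
    obtain ⟨h1, C, hC⟩ := hf
    exact ⟨h1.abs, C, by simpa using hC⟩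
  have h1 : Bdd (volume.restrict disk) (fun _ : Plane => (1 : ℝ)) := bdd_const 1
  have h2 := abs_integral_mul_le hf' h1
  have h3 := lpN_two_sq hf'
  have h4 := lpN_two_sq h1
  have h5 : ∫ _x in disk, (1 : ℝ) * 1 = Real.pi := by
    simp only [mul_one, integral_const, smul_eq_mul]
    exact disk_real
  rw [h5] at h4
  have h6 : ∫ x in disk, |f x| * |f x| = ∫ x in disk, (f x) ^ 2 := by
    refine integral_congr_ae (Eventually.of_forall fun x => ?_)
    show |f x| * |f x| = (f x) ^ 2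
    rw [abs_mul_abs_self]
    ring
  rw [h6] at h3
  simp only [mul_one] at h2
  have h7 : 0 ≤ ∫ x in disk, |f x| := integral_nonneg fun x => abs_nonneg _
  rw [abs_of_nonneg h7] at h2
  refine Real.le_sqrt_of_sq_le ?_
  calc (∫ x in disk, |f x|) ^ 2 ≤ (lpN (volume.restrict disk) 2 (fun x => |f x|) *
        lpN (volume.restrict disk) 2 (fun _ => 1)) ^ 2 := pow_le_pow_left₀ h7 h2 2
    _ = (∫ x in disk, (f x) ^ 2) * Real.pi := by rw [mul_pow, h3, h4]
    _ ≤ A * Real.pi := mul_le_mul_of_nonneg_right hA Real.pi_pos.le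
    _ = Real.pi * A := mul_comm _ _

/-- `L¹` stability with an explicit modulus. -/
theorem l1_bound {G : ℝ → ℝ} {Λ : ℝ} (hM : MonotoneProfile Λ G) {w : ℝ → Plane → ℝ} {Φ : ℝ → Plane → Plane}
    (hw : DiskMotion w Φ) {t : ℝ} (ht : 0 ≤ t) :
    ∫ x in disk, |w t x - G (‖x‖ ^ 2)| ≤ (∫ x in disk, |w 0 x - G (‖x‖ ^ 2)|) +
      Real.sqrt (2 * Real.pi * Λ * ∫ x in disk, |w 0 x - G (‖x‖ ^ 2)|) := by
  have hws := bdd_radial hM.1.continuous
  have hcar := carried_of_flow hw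
  have hN : IsRINorm (volume.restrict disk) (lpN (volume.restrict disk) 1) :=
    lpN_isRINorm le_rfl (by norm_num)
  have h2 := carried_le hN hcar hws ht
  have hc := hws.comp (hw.flow_area t ht)
  rw [lpN_one ((hw.bdd t ht).sub hws).1, lpN_one ((hw.bdd 0 le_rfl).sub hws).1,
    lpN_one (hc.sub hws).1] at h2
  have h3 := l1_le (hc.sub hws) (displacement hM hw ht)
  have h4 : Real.pi * (2 * Λ * ∫ x in disk, |w 0 x - G (‖x‖ ^ 2)|) =
      2 * Real.pi * Λ * ∫ x in disk, |w 0 x - G (‖x‖ ^ 2)| := by ring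
  rw [h4] at h3
  linarith

/-- Continuous radially monotone vorticities are stable in `L¹`. -/
theorem stable_one {G : ℝ → ℝ} (hG : Continuous G) (hM : Antitone G ∨ Monotone G) :
    StableIn DiskMotion (lpN (volume.restrict disk) 1) (fun x => G (‖x‖ ^ 2)) := by
  intro ε hε
  have hpi := Real.pi_pos
  obtain ⟨C, hC0, hC⟩ := displacement_soft hG hM (ε := ε / (4 * Real.pi)) (by positivity)
  refine ⟨min (ε / 4) (ε / (4 * (C + 1))), by positivity, fun w Φ hw hlt t ht => ?_⟩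
  have hws := bdd_radial hG
  have hcar := carried_of_flow hw
  have hN : IsRINorm (volume.restrict disk) (lpN (volume.restrict disk) 1) :=
    lpN_isRINorm le_rfl (by norm_num)
  have h2 := carried_le hN hcar hws ht
  have hc := hws.comp (hw.flow_area t ht)
  have h3 := hC w Φ hw t ht
  rw [← lpN_one (hc.sub hws).1, ← lpN_one ((hw.bdd 0 le_rfl).sub hws).1] at h3
  have h4 := lt_of_lt_of_le hlt (min_le_left _ _)
  have h5 := lt_of_lt_of_le hlt (min_le_right _ _)
  rw [lt_div_iff₀ (by positivity)] at h5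
  have h6 : ε / (4 * Real.pi) * Real.pi = ε / 4 := by field_simp
  rw [h6] at h3
  have h7 : 0 ≤ lpN (volume.restrict disk) 1 (fun x => w 0 x - G (‖x‖ ^ 2)) :=
    ENNReal.toReal_nonneg
  nlinarith

/-- Continuous radially monotone vorticities are stable in every rearrangement invariant norm which
is not equivalent to the sup norm. -/
theorem stable_all {G : ℝ → ℝ} (hG : Continuous G) (hM : Antitone G ∨ Monotone G)
    {N : (Plane → ℝ) → ℝ} (hN : IsRINorm (volume.restrict disk) N)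
    (hs : ¬ EquivSup (volume.restrict disk) N) :
    StableIn DiskMotion N (fun x => G (‖x‖ ^ 2)) := by
  refine stable_of_stable (lpN_isRINorm le_rfl (by norm_num)) hN ?_ hs
    (fun w Φ h => carried_of_flow h) (bdd_radial hG) (stable_one hG hM)
  obtain ⟨C, hC⟩ := hN.l1
  refine ⟨C, fun f hf => ?_⟩
  rw [lpN_one hf.1]
  exact hC f hf

/-- The `L^∞` distance to a radially monotone vorticity grows at most linearly, at a small
rate. -/
theorem sup_radial {G : ℝ → ℝ} {Λ : ℝ} (hM : MonotoneProfile Λ G) {w : ℝ → Plane → ℝ} {Φ : ℝ → Plane → Plane}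
    (hw : DiskMotion w Φ) {B δ : ℝ} (hB : 0 < B) (hδ : 0 < δ)
    (hGB : ∀ s ∈ Icc (0 : ℝ) 1, |G s| ≤ B)
    (hw0 : ∀ᵐ x ∂(volume.restrict disk), |w 0 x| ≤ B)
    (hd : ∀ᵐ x ∂(volume.restrict disk), |w 0 x - G (‖x‖ ^ 2)| ≤ δ) {t : ℝ} (ht : 0 ≤ t) :
    ∀ᵐ x ∂(volume.restrict disk), |w t x - G (‖x‖ ^ 2)| ≤
      δ + 8 * Λ * Real.sqrt (B * (δ + Real.sqrt (2 * Λ * δ))) * t := by
  have hΛ : 0 ≤ Λ := (abs_nonneg _).trans (hM.abs_deriv 0)
  have hpi := Real.pi_pos
  have hws := bdd_radial hM.1.continuous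
  have hm : ∫ x in disk, |w 0 x - G (‖x‖ ^ 2)| ≤ Real.pi * δ := by
    have h2 : ∫ x in disk, |w 0 x - G (‖x‖ ^ 2)| ≤ ∫ _x in disk, δ := by
      refine integral_mono_ae ?_ (integrable_const _) hd
      exact (Integrable.of_bound ((hw.bdd 0 le_rfl).sub hws).1.aestronglyMeasurable δ
        (by simpa using hd)).abs
    rw [integral_const, disk_real, smul_eq_mul] at h2
    exact h2
  have hm0 : 0 ≤ ∫ x in disk, |w 0 x - G (‖x‖ ^ 2)| := integral_nonneg fun x => abs_nonneg _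
  have hρ : ∀ s ∈ Icc 0 t, ∫ x in disk, |w s x - G (‖x‖ ^ 2)| ≤
      Real.pi * (δ + Real.sqrt (2 * Λ * δ)) := by
    intro s hs
    refine (l1_bound hM hw hs.1).trans ?_
    have h3 : Real.sqrt (2 * Real.pi * Λ * ∫ x in disk, |w 0 x - G (‖x‖ ^ 2)|) ≤
        Real.pi * Real.sqrt (2 * Λ * δ) := by
      have h4 : Real.pi * Real.sqrt (2 * Λ * δ) = Real.sqrt (Real.pi ^ 2 * (2 * Λ * δ)) := by
        rw [Real.sqrt_mul (sq_nonneg _), Real.sqrt_sq hpi.le]
      rw [h4]
      refine Real.sqrt_le_sqrt ?_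
      have : 2 * Real.pi * Λ * ∫ x in disk, |w 0 x - G (‖x‖ ^ 2)| ≤
          2 * Real.pi * Λ * (Real.pi * δ) := mul_le_mul_of_nonneg_left hm (by positivity)
      nlinarith
    linarith
  have horth : ∀ x ∈ disk, fderiv ℝ (fun x : Plane => G (‖x‖ ^ 2)) x
      (∫ y in disk, G (‖y‖ ^ 2) • diskKernel x y) = 0 := by
    intro x hx
    rw [(hasFDerivAt_radial hM.1 x).fderiv]
    have h5 : ⟪x, ∫ y in disk, G (‖y‖ ^ 2) • diskKernel x y⟫_ℝ = 0 := by
      rw [inner_velocity hws hx]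
      exact radial_inner G x
    simp [h5]
  have hgrad : ∀ x ∈ disk, DifferentiableAt ℝ (fun x : Plane => G (‖x‖ ^ 2)) x ∧
      ‖fderiv ℝ (fun x : Plane => G (‖x‖ ^ 2)) x‖ ≤ 2 * Λ := by
    intro x hx
    refine ⟨(hasFDerivAt_radial hM.1 x).differentiableAt, ?_⟩
    rw [(hasFDerivAt_radial hM.1 x).fderiv, norm_smul]
    have h6 : ‖deriv G (‖x‖ ^ 2)‖ ≤ Λ := hM.abs_deriv _
    have h7 : ‖(2 • innerSL ℝ x : Plane →L[ℝ] ℝ)‖ ≤ 2 := by
      refine (norm_nsmul_le).trans ?_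
      rw [innerSL_apply_norm]
      have := (mem_disk.1 hx).le
      simp only [Nat.cast_ofNat]
      linarith
    calc ‖deriv G (‖x‖ ^ 2)‖ * ‖(2 • innerSL ℝ x : Plane →L[ℝ] ℝ)‖ ≤ Λ * 2 :=
          mul_le_mul h6 h7 (norm_nonneg _) hΛ
      _ = 2 * Λ := mul_comm _ _
  have hwsB : ∀ᵐ x ∂(volume.restrict disk), |G (‖x‖ ^ 2)| ≤ B := by
    filter_upwards [ae_restrict_mem isOpen_disk.measurableSet] with x hx
    exact hGB _ ⟨sq_nonneg _, pow_le_one₀ (norm_nonneg _) (mem_disk.1 hx).le⟩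
  have hsq0 : 0 ≤ Real.sqrt (2 * Λ * δ) := Real.sqrt_nonneg _
  have hfin := slow_instability isOpen_disk isBounded_disk (K := diskKernel) (C := Real.pi⁻¹)
    (by positivity) (fun x _ => measurable_diskKernel x)
    (fun x hx z hz hzx => norm_diskKernel_le (mem_disk.1 hx) (mem_disk.1 hz) hzx)
    hws horth hgrad hw hB (ρ := Real.pi * (δ + Real.sqrt (2 * Λ * δ))) (by positivity) hwsB hw0
    hρ hd t ⟨ht, le_rfl⟩
  have hval : Real.sqrt (Real.pi * B * (Real.pi * (δ + Real.sqrt (2 * Λ * δ)))) =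
      Real.pi * Real.sqrt (B * (δ + Real.sqrt (2 * Λ * δ))) := by
    have : Real.pi * B * (Real.pi * (δ + Real.sqrt (2 * Λ * δ))) =
        Real.pi ^ 2 * (B * (δ + Real.sqrt (2 * Λ * δ))) := by ring
    rw [this, Real.sqrt_mul (sq_nonneg _), Real.sqrt_sq hpi.le]
  rw [hval] at hfin
  filter_upwards [hfin] with x hx
  refine hx.trans (le_of_eq ?_)
  field_simp
  ring

end Pool.MP_dba1af
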