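import Pool.Agent.Lib.MP_dba1af_an.Stab
import Pool.Agent.Lib.MP_dba1af_an.LpN

/-!
# `L^2` stability is the stability of one scalar observable
-/

open MeasureTheory Set
open scoped ENNReal

namespace Pool.MP_dba1af

variable {α : Type*} [MeasurableSpace α] {μ : Measure α}

/-- For initial data in any given ball of `L^∞` which are close to `ws` in `L^1`, the single
observable `∫ w(t) ws dμ` stays close to its value at `ws`. -/
def ObservableStable (μ : Measure α) (S : (ℝ → α → ℝ) → (ℝ → α → α) → Prop) (ws : α → ℝ) : Prop :=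
  ∀ K ε : ℝ, 0 < ε → ∃ δ : ℝ, 0 < δ ∧ ∀ w Φ, S w Φ → (∀ᵐ x ∂μ, |w 0 x| ≤ K) →
    ∫ x, |w 0 x - ws x| ∂μ < δ →
    ∀ t, 0 ≤ t → |∫ x, w t x * ws x ∂μ - ∫ x, ws x * ws x ∂μ| < ε

private theorem memLp2 [IsFiniteMeasure μ] {f : α → ℝ} (hf : Bdd μ f) : MemLp f 2 μ := by
  obtain ⟨h1, C, hC⟩ := hf
  exact MemLp.of_bound h1.aestronglyMeasurable C (by simpa using hC)

private theorem int3 {f g k : α → ℝ} (hf : Integrable f μ) (hg : Integrable g μ)
    (hk : Integrable k μ) (c d : ℝ) :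
    ∫ x, f x ∂μ + c * ∫ x, g x ∂μ + d * ∫ x, k x ∂μ = ∫ x, f x + c * g x + d * k x ∂μ := by
  have h1 : Integrable (fun x => f x + c * g x) μ := hf.add (hg.const_mul c)
  rw [integral_add h1 (hk.const_mul d), integral_add hf (hg.const_mul c), integral_const_mul,
    integral_const_mul]

theorem integrable_mul_of_bdd [IsFiniteMeasure μ] {f g : α → ℝ} (hf : Bdd μ f) (hg : Bdd μ g) :
    Integrable (fun x => f x * g x) μ := (memLp2 hf).integrable_mul (memLp2 hg)

theorem lpN_two_sq [IsFiniteMeasure μ] {f : α → ℝ} (hf : Bdd μ f) :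
    lpN μ 2 f ^ 2 = ∫ x, f x * f x ∂μ := by
  have h := (memLp2 hf).eLpNorm_eq_integral_rpow_norm (by norm_num) (by norm_num)
  have hnn : 0 ≤ ∫ x, f x * f x ∂μ := integral_nonneg fun x => mul_self_nonneg _
  have h2 : (∫ a, ‖f a‖ ^ (2 : ℝ≥0∞).toReal ∂μ) = ∫ x, f x * f x ∂μ := by
    refine integral_congr_ae (Filter.Eventually.of_forall fun x => ?_)
    simp only [ENNReal.toReal_ofNat, Real.norm_eq_abs, Real.rpow_ofNat, sq_abs]
    ring
  unfold lpN
  rw [h, h2, ENNReal.toReal_ofReal (Real.rpow_nonneg hnn _)]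
  rw [← Real.rpow_natCast, ← Real.rpow_mul hnn]
  norm_num

theorem abs_integral_mul_le [IsFiniteMeasure μ] {f g : α → ℝ} (hf : Bdd μ f) (hg : Bdd μ g) :
    |∫ x, f x * g x ∂μ| ≤ lpN μ 2 f * lpN μ 2 g := by
  have hf0 : 0 ≤ lpN μ 2 f := ENNReal.toReal_nonneg
  have hg0 : 0 ≤ lpN μ 2 g := ENNReal.toReal_nonneg
  have e1 := lpN_two_sq hf
  have e2 := lpN_two_sq hg
  have hfg := integrable_mul_of_bdd hf hg
  have hff := integrable_mul_of_bdd hf hf
  have hgg := integrable_mul_of_bdd hg hg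
  have hquad : ∀ c : ℝ, 0 ≤ (∫ x, f x * f x ∂μ) + 2 * c * (∫ x, f x * g x ∂μ)
      + c ^ 2 * ∫ x, g x * g x ∂μ := by
    intro c
    have : (∫ x, f x * f x ∂μ) + 2 * c * (∫ x, f x * g x ∂μ) + c ^ 2 * ∫ x, g x * g x ∂μ =
        ∫ x, (f x + c * g x) * (f x + c * g x) ∂μ := by
      rw [int3 hff hfg hgg]
      refine integral_congr_ae (Filter.Eventually.of_forall fun x => ?_)
      ring
    rw [this]
    exact integral_nonneg fun x => mul_self_nonneg _
  rw [← e1, ← e2] at hquad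
  set a := lpN μ 2 f
  set b := lpN μ 2 g
  set I := ∫ x, f x * g x ∂μ
  rw [← abs_of_nonneg (mul_nonneg hf0 hg0)]
  refine sq_le_sq.1 ?_
  have hd := discrim_le_zero (K := ℝ) (a := b ^ 2) (b := 2 * I) (c := a ^ 2)
    (fun c => by have := hquad c; nlinarith)
  unfold discrim at hd
  nlinarith

private theorem energy [IsFiniteMeasure μ] {w : ℝ → α → ℝ} {Φ : ℝ → α → α}
    (h : Carried μ w Φ) {t : ℝ} (ht : 0 ≤ t) :
    ∫ x, w t x * w t x ∂μ = ∫ x, w 0 x * w 0 x ∂μ := by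
  have hm : Measurable (fun x => w t x * w t x) := (h.bdd t ht).1.mul (h.bdd t ht).1
  have h1 : ∫ x, w t x * w t x ∂μ = ∫ x, w t (Φ t x) * w t (Φ t x) ∂μ := by
    have := integral_map (μ := μ) (h.meas t ht).measurable.aemeasurable
      (f := fun x => w t x * w t x) (by rw [(h.meas t ht).map_eq]; exact hm.aestronglyMeasurable)
    rw [(h.meas t ht).map_eq] at this
    exact this
  rw [h1]
  refine integral_congr_ae ?_
  filter_upwards [h.transport t ht] with x hx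
  rw [hx]

private theorem identity [IsFiniteMeasure μ] {w : ℝ → α → ℝ} {Φ : ℝ → α → α}
    (h : Carried μ w Φ) {ws : α → ℝ} (hws : Bdd μ ws) {t : ℝ} (ht : 0 ≤ t) :
    lpN μ 2 (fun x => w t x - ws x) ^ 2 = lpN μ 2 (fun x => w 0 x - ws x) ^ 2
      + 2 * (∫ x, w 0 x * ws x ∂μ - ∫ x, ws x * ws x ∂μ)
      - 2 * (∫ x, w t x * ws x ∂μ - ∫ x, ws x * ws x ∂μ) := by
  have key : ∀ s : ℝ, 0 ≤ s → lpN μ 2 (fun x => w s x - ws x) ^ 2 =
      ∫ x, w 0 x * w 0 x ∂μ + (-2) * (∫ x, w s x * ws x ∂μ) + 1 * ∫ x, ws x * ws x ∂μ := by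
    intro s hs
    have hb := h.bdd s hs
    rw [lpN_two_sq (hb.sub hws), ← energy h hs, int3 (integrable_mul_of_bdd hb hb)
      (integrable_mul_of_bdd hb hws) (integrable_mul_of_bdd hws hws)]
    refine integral_congr_ae (Filter.Eventually.of_forall fun x => ?_)
    ring
  rw [key t ht, key 0 le_rfl]
  ring

private theorem observable_le [IsFiniteMeasure μ] {w : ℝ → α → ℝ} {Φ : ℝ → α → α}
    (h : Carried μ w Φ) {ws : α → ℝ} (hws : Bdd μ ws) {t : ℝ} (ht : 0 ≤ t) :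
    |∫ x, w t x * ws x ∂μ - ∫ x, ws x * ws x ∂μ| ≤
      lpN μ 2 (fun x => w t x - ws x) * lpN μ 2 ws := by
  have hbd := h.bdd t ht
  rw [← integral_sub (integrable_mul_of_bdd hbd hws) (integrable_mul_of_bdd hws hws)]
  have := abs_integral_mul_le (hbd.sub hws) hws
  refine le_trans (le_of_eq ?_) this
  congr 1
  refine integral_congr_ae (Filter.Eventually.of_forall fun x => ?_)
  ring

/-- On balls of `L^∞`, `L^2` stability is the stability of the single observable `∫ w(t) ws`. -/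
theorem ball_two_iff [IsFiniteMeasure μ] (hs2 : ¬ EquivSup μ (lpN μ 2))
    {S : (ℝ → α → ℝ) → (ℝ → α → α) → Prop} (hS : ∀ w Φ, S w Φ → Carried μ w Φ) {ws : α → ℝ}
    (hws : Bdd μ ws) : BallStableIn μ S (lpN μ 2) ws ↔ ObservableStable μ S ws := by
  have hRI1 : IsRINorm μ (lpN μ 1) := lpN_isRINorm le_rfl (by norm_num)
  have hRI2 : IsRINorm μ (lpN μ 2) := lpN_isRINorm (by norm_num) (by norm_num)
  set b := lpN μ 2 ws with hb
  have hb0 : 0 ≤ b := ENNReal.toReal_nonneg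
  constructor
  · intro h K ε hε
    obtain ⟨D, hD⟩ := hws.2
    obtain ⟨δ, hδ, h1⟩ := h K (ε / (b + 1)) (by positivity)
    obtain ⟨η, hη, hη2⟩ := IsRINorm.small_of_small hRI1 hRI2 hs2 (B := |K| + |D|)
      (by positivity) hδ
    refine ⟨η, hη, fun w Φ hw hK h0 t ht => ?_⟩
    have hcar := hS w Φ hw
    have hf := (hcar.bdd 0 le_rfl).sub hws
    rw [← lpN_one hf.1] at h0
    have hbd : ∀ᵐ x ∂μ, |w 0 x - ws x| ≤ |K| + |D| := by
      filter_upwards [hK, hD] with x a1 a2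
      have := abs_sub (w 0 x) (ws x)
      have := le_abs_self D
      have := le_abs_self K
      linarith
    have h2 := h1 w Φ hw hK (hη2 _ hf.1 hbd h0) t ht
    refine lt_of_le_of_lt (observable_le hcar hws ht) ?_
    rw [lt_div_iff₀ (by positivity)] at h2
    have : 0 ≤ lpN μ 2 (fun x => w t x - ws x) := ENNReal.toReal_nonneg
    nlinarith
  · intro h K ε hε
    obtain ⟨δ, hδ, h1⟩ := h K (ε ^ 2 / 8) (by positivity)
    obtain ⟨C, hC⟩ := hRI2.l1
    refine ⟨min (δ / (|C| + 1)) (min (ε / 2) (ε ^ 2 / (8 * (b + 1)))), by positivity,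
      fun w Φ hw hK h0 t ht => ?_⟩
    have hcar := hS w Φ hw
    have hf := (hcar.bdd 0 le_rfl).sub hws
    have hn0 : 0 ≤ lpN μ 2 (fun x => w 0 x - ws x) := ENNReal.toReal_nonneg
    have hnt : 0 ≤ lpN μ 2 (fun x => w t x - ws x) := ENNReal.toReal_nonneg
    have h01 := lt_of_lt_of_le h0 (min_le_left _ _)
    rw [lt_div_iff₀ (by positivity)] at h01
    have hl1 : ∫ x, |w 0 x - ws x| ∂μ < δ := by
      have a1 := hC _ hf
      have a2 : C * lpN μ 2 (fun x => w 0 x - ws x) ≤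
          (|C| + 1) * lpN μ 2 (fun x => w 0 x - ws x) :=
        mul_le_mul_of_nonneg_right ((le_abs_self C).trans (by linarith)) hn0
      linarith
    have h2 := h1 w Φ hw hK hl1 t ht
    have h3 := lt_of_lt_of_le h0 ((min_le_right _ _).trans (min_le_left _ _))
    have h4 := lt_of_lt_of_le h0 ((min_le_right _ _).trans (min_le_right _ _))
    have h5 := identity hcar hws ht
    have h6 := observable_le hcar hws le_rfl
    rw [lt_div_iff₀ (by positivity)] at h4
    have h7 : lpN μ 2 (fun x => w 0 x - ws x) * lpN μ 2 ws ≤ ε ^ 2 / 8 := by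
      rw [← hb]
      nlinarith
    have h8 : lpN μ 2 (fun x => w 0 x - ws x) ^ 2 ≤ (ε / 2) ^ 2 :=
      pow_le_pow_left₀ hn0 h3.le 2
    have h9 := abs_le.1 (h6.trans h7)
    have h10 := abs_lt.1 h2
    have h11 : lpN μ 2 (fun x => w t x - ws x) ^ 2 < ε ^ 2 := by
      rw [h5]
      nlinarith [h9.1, h9.2, h10.1, h10.2]
    exact lt_of_pow_lt_pow_left₀ 2 hε.le h11

end Pool.MP_dba1af
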