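import Pool.Agent.Lib.MP_dba1af_an.Norms

/-!
# Stability in rearrangement invariant norms
-/

open MeasureTheory Set

namespace Pool.MP_dba1af

variable {α : Type*} [MeasurableSpace α] {μ : Measure α}

theorem carried_le {N : (α → ℝ) → ℝ} (hN : IsRINorm μ N) {w : ℝ → α → ℝ} {Φ : ℝ → α → α}
    (h : Carried μ w Φ) {ws : α → ℝ} (hws : Bdd μ ws) {t : ℝ} (ht : 0 ≤ t) :
    N (fun x => w t x - ws x) ≤
      N (fun x => w 0 x - ws x) + N (fun x => ws (Φ t x) - ws x) := by
  have hw0 := h.bdd 0 le_rfl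
  have hwt := h.bdd t ht
  have hc := hws.comp (h.meas t ht)
  have e1 : N (fun x => w t x - ws x) = N (fun x => w t (Φ t x) - ws (Φ t x)) :=
    (hN.comp (hwt.sub hws) (h.meas t ht)).symm
  have e2 : N (fun x => w t (Φ t x) - ws (Φ t x)) = N (fun x => w 0 x - ws (Φ t x)) := by
    refine hN.congr_ae ((hwt.comp (h.meas t ht)).sub hc) (hw0.sub hc) ?_
    filter_upwards [h.transport t ht] with x hx
    rw [hx]
  have e3 : N (fun x => w 0 x - ws (Φ t x)) =
      N (fun x => (w 0 x - ws x) + (ws x - ws (Φ t x))) := by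
    congr 1
    ext x
    ring
  rw [e1, e2, e3, hN.sub_comm hc hws]
  exact hN.add_le _ _ (hw0.sub hws) (hws.sub hc)

private theorem defect_le {N : (α → ℝ) → ℝ} (hN : IsRINorm μ N) {w : ℝ → α → ℝ} {Φ : ℝ → α → α}
    (h : Carried μ w Φ) {ws : α → ℝ} (hws : Bdd μ ws) {t : ℝ} (ht : 0 ≤ t) :
    N (fun x => ws (Φ t x) - ws x) ≤
      N (fun x => w t x - ws x) + N (fun x => w 0 x - ws x) := by
  have hw0 := h.bdd 0 le_rfl
  have hwt := h.bdd t ht
  have hc := hws.comp (h.meas t ht)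
  have e1 : N (fun x => w t x - ws x) = N (fun x => w t (Φ t x) - ws (Φ t x)) :=
    (hN.comp (hwt.sub hws) (h.meas t ht)).symm
  have e2 : N (fun x => w t (Φ t x) - ws (Φ t x)) = N (fun x => w 0 x - ws (Φ t x)) := by
    refine hN.congr_ae ((hwt.comp (h.meas t ht)).sub hc) (hw0.sub hc) ?_
    filter_upwards [h.transport t ht] with x hx
    rw [hx]
  have e3 : N (fun x => ws (Φ t x) - ws x) =
      N (fun x => (ws (Φ t x) - w 0 x) + (w 0 x - ws x)) := by
    congr 1
    ext x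
    ring
  rw [e1, e2, e3, hN.sub_comm hw0 hc]
  exact hN.add_le _ _ (hc.sub hw0) (hw0.sub hws)

/-- Stability in `N1` implies stability in every larger norm which is not equivalent to `L^∞`. -/
theorem stable_of_stable {N1 N2 : (α → ℝ) → ℝ} (h1 : IsRINorm μ N1) (h2 : IsRINorm μ N2)
    (hC : ∃ C : ℝ, ∀ f, Bdd μ f → N1 f ≤ C * N2 f) (hs : ¬ EquivSup μ N2)
    {S : (ℝ → α → ℝ) → (ℝ → α → α) → Prop} (hS : ∀ w Φ, S w Φ → Carried μ w Φ)
    {ws : α → ℝ} (hws : Bdd μ ws) (hst : StableIn S N1 ws) : StableIn S N2 ws := by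
  intro ε hε
  obtain ⟨C, hC⟩ := hC
  obtain ⟨D, hD⟩ := hws.2
  obtain ⟨η, hη, hη2⟩ := IsRINorm.small_of_small h1 h2 hs (B := 2 * |D|) (ε := ε / 2)
    (by positivity) (by positivity)
  obtain ⟨δ1, hδ1, hst1⟩ := hst (η / 2) (by positivity)
  have hC0 : 0 < |C| + 1 := by positivity
  refine ⟨min (ε / 2) (min δ1 (η / 2) / (|C| + 1)), by positivity, fun w Φ hw h0 t ht => ?_⟩
  have hcar := hS w Φ hw
  have hf := (hcar.bdd 0 le_rfl).sub hws
  have hN2f := h2.nonneg _ hf
  have hN1f : N1 (fun x => w 0 x - ws x) < min δ1 (η / 2) := by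
    have a1 := hC _ hf
    have a2 : C * N2 (fun x => w 0 x - ws x) ≤ (|C| + 1) * N2 (fun x => w 0 x - ws x) :=
      mul_le_mul_of_nonneg_right ((le_abs_self C).trans (by linarith)) hN2f
    have a3 := lt_of_lt_of_le h0 (min_le_right _ _)
    rw [lt_div_iff₀ hC0] at a3
    linarith
  have hN1t := hst1 w Φ hw (lt_of_lt_of_le hN1f (min_le_left _ _)) t ht
  have hdef := defect_le h1 hcar hws ht
  have hlt : N1 (fun x => ws (Φ t x) - ws x) < η := by
    have := lt_of_lt_of_le hN1f (min_le_right _ _)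
    linarith
  have hc := hws.comp (hcar.meas t ht)
  have hbd : ∀ᵐ x ∂μ, |ws (Φ t x) - ws x| ≤ 2 * |D| := by
    filter_upwards [hD, (hcar.meas t ht).quasiMeasurePreserving.ae hD] with x a1 a2
    have := abs_sub (ws (Φ t x)) (ws x)
    have := le_abs_self D
    linarith
  have h5 := hη2 _ (hc.sub hws).1 hbd hlt
  have h6 := carried_le h2 hcar hws ht
  have h7 := lt_of_lt_of_le h0 (min_le_left _ _)
  linarith

/-- For initial data in a ball of `L^∞` all norms which are not equivalent to `L^∞` give the same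
stability. -/
theorem ballStable_of_ballStable {N1 N2 : (α → ℝ) → ℝ} (h1 : IsRINorm μ N1)
    (h2 : IsRINorm μ N2) (hs1 : ¬ EquivSup μ N1) (hs2 : ¬ EquivSup μ N2)
    {S : (ℝ → α → ℝ) → (ℝ → α → α) → Prop} (hS : ∀ w Φ, S w Φ → Carried μ w Φ)
    {ws : α → ℝ} (hws : Bdd μ ws) (hst : BallStableIn μ S N1 ws) : BallStableIn μ S N2 ws := by
  intro K ε hε
  obtain ⟨D, hD⟩ := hws.2
  have hB : 0 ≤ |K| + |D| := by positivity
  obtain ⟨η1, hη1, hη12⟩ := IsRINorm.small_of_small h1 h2 hs2 hB hε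
  obtain ⟨δ1, hδ1, hst1⟩ := hst K η1 hη1
  obtain ⟨η2, hη2, hη22⟩ := IsRINorm.small_of_small h2 h1 hs1 hB hδ1
  refine ⟨η2, hη2, fun w Φ hw hK h0 t ht => ?_⟩
  have hcar := hS w Φ hw
  have hf := (hcar.bdd 0 le_rfl).sub hws
  have hb : ∀ v : α → ℝ, (∀ᵐ x ∂μ, |v x| ≤ K) → ∀ᵐ x ∂μ, |v x - ws x| ≤ |K| + |D| := by
    intro v hv
    filter_upwards [hv, hD] with x a1 a2
    have := abs_sub (v x) (ws x)
    have := le_abs_self D
    have := le_abs_self K
    linarith
  have hN1 := hη22 _ hf.1 (hb _ hK) h0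
  have hN1t := hst1 w Φ hw hK hN1 t ht
  have hKt : ∀ᵐ x ∂μ, |w t x| ≤ K := by
    rw [ae_iff]
    have hm : MeasurableSet {x | ¬ |w t x| ≤ K} :=
      (measurableSet_le (hcar.bdd t ht).1.abs measurable_const).compl
    rw [← (hcar.meas t ht).measure_preimage hm.nullMeasurableSet]
    have : ∀ᵐ x ∂μ, |w t (Φ t x)| ≤ K := by
      filter_upwards [hK, hcar.transport t ht] with x a1 a2
      rw [a2]
      exact a1
    exact this
  exact hη12 _ ((hcar.bdd t ht).sub hws).1 (hb _ hKt) hN1t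

/-- The endpoint `L^∞`: stability means that the values of `ws` are nearly conserved along all
trajectories. -/
theorem supStable_iff {S : (ℝ → α → ℝ) → (ℝ → α → α) → Prop}
    (hS : ∀ w Φ, S w Φ → Carried μ w Φ) {ws : α → ℝ} (hws : Bdd μ ws) :
    SupStable μ S ws ↔ ParticleStable μ S ws := by
  constructor
  · intro h ε hε
    obtain ⟨δ, hδ, h1⟩ := h (ε / 2) (by positivity)
    refine ⟨min δ (ε / 2), by positivity, fun w Φ hw h0 t ht => ?_⟩
    have hcar := hS w Φ hw
    have h2 := h1 w Φ hw (by filter_upwards [h0] with x hx using hx.trans (min_le_left _ _)) t ht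
    filter_upwards [h0, (hcar.meas t ht).quasiMeasurePreserving.ae h2,
      hcar.transport t ht] with x a1 a2 a3
    rw [a3] at a2
    have a4 := a1.trans (min_le_right _ _)
    rw [abs_le] at a2 a4 ⊢
    constructor <;> linarith [a2.1, a2.2, a4.1, a4.2]
  · intro h ε hε
    obtain ⟨δ, hδ, h1⟩ := h (ε / 2) (by positivity)
    refine ⟨min δ (ε / 2), by positivity, fun w Φ hw h0 t ht => ?_⟩
    have hcar := hS w Φ hw
    have h2 := h1 w Φ hw (by filter_upwards [h0] with x hx using hx.trans (min_le_left _ _)) t ht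
    rw [ae_iff]
    have hm : MeasurableSet {x | ¬ |w t x - ws x| ≤ ε} :=
      (measurableSet_le ((hcar.bdd t ht).sub hws).1.abs measurable_const).compl
    rw [← (hcar.meas t ht).measure_preimage hm.nullMeasurableSet]
    have : ∀ᵐ x ∂μ, |w t (Φ t x) - ws (Φ t x)| ≤ ε := by
      filter_upwards [h0, h2, hcar.transport t ht] with x a1 a2 a3
      rw [a3]
      have a4 := a1.trans (min_le_right _ _)
      rw [abs_le] at a2 a4 ⊢
      constructor <;> linarith [a2.1, a2.2, a4.1, a4.2]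
    exact this

end Pool.MP_dba1af
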