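import Pool.Agent.Lib.MP_dba1af_an.Inertia
import Pool.Agent.Lib.MP_dba1af_an.Scalar

/-!
# Radially monotone vortices in the unit disc
-/

open MeasureTheory Set Metric Filter Topology
open scoped ENNReal InnerProductSpace

namespace Pool.MP_dba1af

private theorem gap {G : ℝ → ℝ} {Λ : ℝ} (hG : Differentiable ℝ G) (h0 : ∀ s, deriv G s ≤ 0)
    (h1 : ∀ s, -Λ ≤ deriv G s) (a b : ℝ) : (G b - G a) ^ 2 ≤
      2 * Λ * ((b - a) * G a - ((∫ s in (0 : ℝ)..b, G s) - ∫ s in (0 : ℝ)..a, G s)) := by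
  have hanti : Antitone G := antitone_of_deriv_nonpos hG h0
  set Γ : ℝ → ℝ := fun x => ∫ s in (0 : ℝ)..x, G s with hΓ
  have hΓd : ∀ x, HasDerivAt Γ (G x) x := fun x =>
    intervalIntegral.integral_hasDerivAt_right (hG.continuous.intervalIntegrable _ _)
      hG.continuous.stronglyMeasurable.stronglyMeasurableAtFilter hG.continuous.continuousAt
  set φ : ℝ → ℝ := fun x => 2 * Λ * ((x - a) * G a - (Γ x - Γ a)) - (G x - G a) ^ 2 with hφ
  have hφd : ∀ x, HasDerivAt φ (2 * (G a - G x) * (Λ + deriv G x)) x := by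
    intro x
    have e1 : HasDerivAt (fun x => (x - a) * G a - (Γ x - Γ a)) (1 * G a - G x) x :=
      (((hasDerivAt_id x).sub_const a).mul_const (G a)).sub ((hΓd x).sub_const _)
    have e2 : HasDerivAt (fun x => (G x - G a) ^ 2) (2 * (G x - G a) * deriv G x) x := by
      have := ((hG x).hasDerivAt.sub_const (G a)).fun_pow 2
      simpa using this
    have e3 : HasDerivAt φ (2 * Λ * (1 * G a - G x) - 2 * (G x - G a) * deriv G x) x :=
      (e1.const_mul (2 * Λ)).fun_sub e2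
    have e4 : 2 * (G a - G x) * (Λ + deriv G x) =
        2 * Λ * (1 * G a - G x) - 2 * (G x - G a) * deriv G x := by ring
    rw [e4]
    exact e3
  have hφa : φ a = 0 := by simp [hφ]
  have hfin : 0 ≤ φ b := by
    rcases lt_trichotomy a b with hab | hab | hab
    · obtain ⟨c, hc, hc2⟩ := exists_hasDerivAt_eq_slope φ
        (fun x => 2 * (G a - G x) * (Λ + deriv G x)) hab
        (fun x _ => (hφd x).continuousAt.continuousWithinAt) (fun x _ => hφd x)
      rw [hφa, sub_zero, eq_div_iff (sub_ne_zero.2 hab.ne')] at hc2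
      rw [← hc2]
      have s1 : 0 ≤ G a - G c := sub_nonneg.2 (hanti hc.1.le)
      have s2 : 0 ≤ Λ + deriv G c := by linarith [h1 c]
      have s3 : 0 ≤ b - a := sub_nonneg.2 hab.le
      positivity
    · rw [← hab, hφa]
    · obtain ⟨c, hc, hc2⟩ := exists_hasDerivAt_eq_slope φ
        (fun x => 2 * (G a - G x) * (Λ + deriv G x)) hab
        (fun x _ => (hφd x).continuousAt.continuousWithinAt) (fun x _ => hφd x)
      rw [hφa, eq_div_iff (sub_ne_zero.2 hab.ne')] at hc2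
      have s1 : 0 ≤ G c - G a := sub_nonneg.2 (hanti hc.2.le)
      have s2 : 0 ≤ Λ + deriv G c := by linarith [h1 c]
      have s3 : 0 ≤ a - b := sub_nonneg.2 hab.le
      have s4 : 0 ≤ 2 * (G c - G a) * (Λ + deriv G c) * (a - b) := by positivity
      have : φ b = 2 * (G c - G a) * (Λ + deriv G c) * (a - b) := by linarith
      rw [this]
      exact s4
  have : φ b = 2 * Λ * ((b - a) * G a - (Γ b - Γ a)) - (G b - G a) ^ 2 := rfl
  linarith

/-- The integrand of the excess of the moment of inertia. -/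
noncomputable def excessFn (G : ℝ → ℝ) (a b : ℝ) : ℝ :=
  (b - a) * G a - ((∫ s in (0 : ℝ)..b, G s) - ∫ s in (0 : ℝ)..a, G s)

private theorem excess {G : ℝ → ℝ} (hG : Continuous G) {T : Plane → Plane}
    (hT : MeasurePreserving T (volume.restrict disk) (volume.restrict disk))
    (hTm : MapsTo T disk disk) {v : Plane → ℝ} (hv : Bdd (volume.restrict disk) v)
    (hJ : ∫ x in disk, (‖T x‖ ^ 2 - ‖x‖ ^ 2) * v x = 0) :
    Integrable (fun x => excessFn G (‖x‖ ^ 2) (‖T x‖ ^ 2)) (volume.restrict disk) ∧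
    ∫ x in disk, excessFn G (‖x‖ ^ 2) (‖T x‖ ^ 2) ≤ ∫ x in disk, |v x - G (‖x‖ ^ 2)| := by
  set μ : Measure Plane := volume.restrict disk with hμ
  set Γ : ℝ → ℝ := fun x => ∫ s in (0 : ℝ)..x, G s with hΓ
  have hΓc : Continuous Γ := by
    have : ∀ x, HasDerivAt Γ (G x) x := fun x =>
      intervalIntegral.integral_hasDerivAt_right (hG.intervalIntegrable _ _)
        hG.stronglyMeasurable.stronglyMeasurableAtFilter hG.continuousAt
    exact continuous_iff_continuousAt.2 fun x => (this x).continuousAt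
  have hdisk : ∀ᵐ x ∂μ, x ∈ disk := ae_restrict_mem isOpen_disk.measurableSet
  have hΦm : Measurable T := hT.measurable
  have hsq : ∀ x ∈ disk, ‖x‖ ^ 2 ∈ Icc (0 : ℝ) 1 := fun x hx =>
    ⟨sq_nonneg _, pow_le_one₀ (norm_nonneg _) (mem_disk.1 hx).le⟩
  have hsqt : ∀ x ∈ disk, ‖T x‖ ^ 2 ∈ Icc (0 : ℝ) 1 := fun x hx =>
    hsq _ (hTm hx)
  -- continuous functions of the radii are integrable
  have hbd : ∀ k : ℝ → ℝ, Continuous k → ∃ C : ℝ, ∀ s ∈ Icc (0 : ℝ) 1, |k s| ≤ C := by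
    intro k hk
    obtain ⟨C, hC⟩ := isCompact_Icc.exists_bound_of_continuousOn (s := Icc (0 : ℝ) 1)
      hk.continuousOn
    exact ⟨C, fun s hs => by simpa using hC s hs⟩
  have hintk : ∀ k : ℝ → ℝ, Continuous k → Integrable (fun x => k (‖x‖ ^ 2)) μ := by
    intro k hk
    obtain ⟨C, hC⟩ := hbd k hk
    refine Integrable.of_bound (hk.measurable.comp (measurable_norm.pow_const 2)).aestronglyMeasurable
      C ?_
    filter_upwards [hdisk] with x hx
    rw [Real.norm_eq_abs]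
    exact hC _ (hsq x hx)
  have hintkt : ∀ k : ℝ → ℝ, Continuous k → Integrable (fun x => k (‖T x‖ ^ 2)) μ := by
    intro k hk
    obtain ⟨C, hC⟩ := hbd k hk
    refine Integrable.of_bound
      (hk.measurable.comp (hΦm.norm.pow_const 2)).aestronglyMeasurable C ?_
    filter_upwards [hdisk] with x hx
    rw [Real.norm_eq_abs]
    exact hC _ (hsqt x hx)
  -- equimeasurability
  have hΓe : ∫ x, Γ (‖T x‖ ^ 2) ∂μ = ∫ x, Γ (‖x‖ ^ 2) ∂μ := by
    have hmf : Measurable fun y : Plane => Γ (‖y‖ ^ 2) :=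
      hΓc.measurable.comp (measurable_norm.pow_const 2)
    have := integral_map (μ := μ) hΦm.aemeasurable (f := fun y => Γ (‖y‖ ^ 2))
      (by rw [hT.map_eq]; exact hmf.aestronglyMeasurable)
    rw [hT.map_eq] at this
    exact this.symm
  obtain ⟨CG, hCG⟩ := hbd G hG
  have hGm : Measurable fun x : Plane => G (‖x‖ ^ 2) :=
    hG.measurable.comp (measurable_norm.pow_const 2)
  have hr1m : Measurable fun x => ‖T x‖ ^ 2 - ‖x‖ ^ 2 :=
    (hΦm.norm.pow_const 2).sub (measurable_norm.pow_const 2)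
  have hrle : ∀ x ∈ disk, |‖T x‖ ^ 2 - ‖x‖ ^ 2| ≤ 1 := by
    intro x hx
    have a1 := hsq x hx
    have a2 := hsqt x hx
    rw [abs_le]
    constructor <;> linarith [a1.1, a1.2, a2.1, a2.2]
  have hintrG : Integrable (fun x => (‖T x‖ ^ 2 - ‖x‖ ^ 2) * G (‖x‖ ^ 2)) μ := by
    refine Integrable.of_bound (hr1m.mul hGm).aestronglyMeasurable CG ?_
    filter_upwards [hdisk] with x hx
    rw [norm_mul, Real.norm_eq_abs, Real.norm_eq_abs]
    calc |‖T x‖ ^ 2 - ‖x‖ ^ 2| * |G (‖x‖ ^ 2)| ≤ 1 * CG :=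
          mul_le_mul (hrle x hx) (hCG _ (hsq x hx)) (abs_nonneg _) zero_le_one
      _ = CG := one_mul _
  obtain ⟨B, hB⟩ := hv.2
  have hw0m := hv.1
  have hintrw : Integrable (fun x => (‖T x‖ ^ 2 - ‖x‖ ^ 2) * v x) μ := by
    refine Integrable.of_bound (hr1m.mul hw0m).aestronglyMeasurable |B| ?_
    filter_upwards [hdisk, hB] with x hx hx2
    rw [norm_mul, Real.norm_eq_abs, Real.norm_eq_abs]
    calc |‖T x‖ ^ 2 - ‖x‖ ^ 2| * |v x| ≤ 1 * |B| :=
          mul_le_mul (hrle x hx) (hx2.trans (le_abs_self B)) (abs_nonneg _) zero_le_one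
      _ = |B| := one_mul _
  have hintd : Integrable (fun x => |v x - G (‖x‖ ^ 2)|) μ := by
    refine (Integrable.of_bound (hw0m.sub hGm).aestronglyMeasurable (|B| + CG) ?_).abs
    filter_upwards [hdisk, hB] with x hx hx2
    show |v x - G (‖x‖ ^ 2)| ≤ _
    have := abs_sub (v x) (G (‖x‖ ^ 2))
    have := hCG _ (hsq x hx)
    have := le_abs_self B
    linarith
  have hD : ∫ x, (‖T x‖ ^ 2 - ‖x‖ ^ 2) * G (‖x‖ ^ 2) ∂μ ≤
      ∫ x, |v x - G (‖x‖ ^ 2)| ∂μ := by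
    have e : ∫ x, (‖T x‖ ^ 2 - ‖x‖ ^ 2) * G (‖x‖ ^ 2) ∂μ =
        ∫ x, ((‖T x‖ ^ 2 - ‖x‖ ^ 2) * G (‖x‖ ^ 2) -
          (‖T x‖ ^ 2 - ‖x‖ ^ 2) * v x) ∂μ := by
      rw [integral_sub hintrG hintrw, hJ, sub_zero]
    rw [e]
    refine integral_mono_ae (hintrG.sub hintrw) hintd ?_
    filter_upwards [hdisk] with x hx
    have h2 : (‖T x‖ ^ 2 - ‖x‖ ^ 2) * G (‖x‖ ^ 2) - (‖T x‖ ^ 2 - ‖x‖ ^ 2) * v x =
        -((‖T x‖ ^ 2 - ‖x‖ ^ 2) * (v x - G (‖x‖ ^ 2))) := by ring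
    rw [h2]
    refine (neg_le_abs _).trans ?_
    rw [abs_mul]
    calc |‖T x‖ ^ 2 - ‖x‖ ^ 2| * |v x - G (‖x‖ ^ 2)|
        ≤ 1 * |v x - G (‖x‖ ^ 2)| := mul_le_mul_of_nonneg_right (hrle x hx) (abs_nonneg _)
      _ = _ := one_mul _
  have hint := hintrG.sub ((hintkt Γ hΓc).sub (hintk Γ hΓc))
  have hval : ∫ x, excessFn G (‖x‖ ^ 2) (‖T x‖ ^ 2) ∂μ =
      ∫ x, (‖T x‖ ^ 2 - ‖x‖ ^ 2) * G (‖x‖ ^ 2) ∂μ := by
    have s1 : ∫ x, ((‖T x‖ ^ 2 - ‖x‖ ^ 2) * G (‖x‖ ^ 2) -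
        (Γ (‖T x‖ ^ 2) - Γ (‖x‖ ^ 2))) ∂μ =
        ∫ x, (‖T x‖ ^ 2 - ‖x‖ ^ 2) * G (‖x‖ ^ 2) ∂μ -
          ∫ x, (Γ (‖T x‖ ^ 2) - Γ (‖x‖ ^ 2)) ∂μ :=
      integral_sub hintrG ((hintkt Γ hΓc).sub (hintk Γ hΓc))
    have s2 : ∫ x, (Γ (‖T x‖ ^ 2) - Γ (‖x‖ ^ 2)) ∂μ = 0 := by
      rw [integral_sub (hintkt Γ hΓc) (hintk Γ hΓc), hΓe, sub_self]
    rw [s2, sub_zero] at s1
    exact s1
  exact ⟨hint, hval.le.trans hD⟩

private theorem excess_pos {G : ℝ → ℝ} (hG : Continuous G) (hanti : Antitone G) (a b : ℝ) :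
    0 ≤ excessFn G a b ∧ (G b ≠ G a → 0 < excessFn G a b) := by
  have hII : ∀ p q : ℝ, IntervalIntegrable G volume p q := fun p q => hG.intervalIntegrable _ _
  have e : excessFn G a b = ∫ s in a..b, (G a - G s) := by
    unfold excessFn
    rw [intervalIntegral.integral_sub (intervalIntegrable_const) (hII a b),
      intervalIntegral.integral_const, smul_eq_mul,
      intervalIntegral.integral_interval_sub_left (hII 0 b) (hII 0 a)]
  rw [e]
  rcases lt_trichotomy a b with hab | hab | hab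
  · refine ⟨intervalIntegral.integral_nonneg hab.le fun s hs => sub_nonneg.2 (hanti hs.1),
      fun hne => ?_⟩
    refine intervalIntegral.integral_pos hab (continuous_const.sub hG).continuousOn
      (fun s hs => sub_nonneg.2 (hanti hs.1.le)) ⟨b, ⟨hab.le, le_rfl⟩, ?_⟩
    exact sub_pos.2 (lt_of_le_of_ne (hanti hab.le) hne)
  · subst hab
    simp
  · have e2 : ∫ s in a..b, (G a - G s) = ∫ s in b..a, (G s - G a) := by
      rw [intervalIntegral.integral_symm, ← intervalIntegral.integral_neg]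
      refine intervalIntegral.integral_congr fun s _ => ?_
      ring
    rw [e2]
    refine ⟨intervalIntegral.integral_nonneg hab.le fun s hs => sub_nonneg.2 (hanti hs.2),
      fun hne => ?_⟩
    refine intervalIntegral.integral_pos hab (hG.sub continuous_const).continuousOn
      (fun s hs => sub_nonneg.2 (hanti hs.2)) ⟨b, ⟨le_rfl, hab.le⟩, ?_⟩
    exact sub_pos.2 (lt_of_le_of_ne (hanti hab.le) hne.symm)

private theorem continuous_excess {G : ℝ → ℝ} (hG : Continuous G) :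
    Continuous fun p : ℝ × ℝ => excessFn G p.1 p.2 := by
  have hΓc : Continuous fun x => ∫ s in (0 : ℝ)..x, G s := by
    have : ∀ x, HasDerivAt (fun x => ∫ s in (0 : ℝ)..x, G s) (G x) x := fun x =>
      intervalIntegral.integral_hasDerivAt_right (hG.intervalIntegrable _ _)
        hG.stronglyMeasurable.stronglyMeasurableAtFilter hG.continuousAt
    exact continuous_iff_continuousAt.2 fun x => (this x).continuousAt
  unfold excessFn
  exact ((continuous_snd.sub continuous_fst).mul (hG.comp continuous_fst)).sub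
    ((hΓc.comp continuous_snd).sub (hΓc.comp continuous_fst))

/-- For a continuous monotone profile the displacement is small if the excess is small. -/
private theorem soft {G : ℝ → ℝ} (hG : Continuous G) (hanti : Antitone G) {ε : ℝ} (hε : 0 < ε) :
    ∃ C : ℝ, 0 ≤ C ∧ ∀ a ∈ Icc (0 : ℝ) 1, ∀ b ∈ Icc (0 : ℝ) 1,
      |G b - G a| ≤ ε + C * excessFn G a b := by
  set S : Set (ℝ × ℝ) := (Icc (0 : ℝ) 1 ×ˢ Icc (0 : ℝ) 1) ∩ {p | ε ≤ |G p.2 - G p.1|} with hS
  have hSc : IsCompact S := (isCompact_Icc.prod isCompact_Icc).inter_right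
    (isClosed_le continuous_const
      ((hG.comp continuous_snd).sub (hG.comp continuous_fst)).abs)
  obtain ⟨D, hD⟩ : ∃ D : ℝ, ∀ s ∈ Icc (0 : ℝ) 1, |G s| ≤ D := by
    obtain ⟨D, hD⟩ := isCompact_Icc.exists_bound_of_continuousOn (s := Icc (0 : ℝ) 1)
      hG.continuousOn
    exact ⟨D, fun s hs => by simpa using hD s hs⟩
  have hD0 : 0 ≤ D := (abs_nonneg _).trans (hD 0 ⟨le_rfl, zero_le_one⟩)
  rcases S.eq_empty_or_nonempty with hem | hne
  · refine ⟨0, le_rfl, fun a ha b hb => ?_⟩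
    have : (a, b) ∉ S := by rw [hem]; exact notMem_empty _
    have h2 : ¬ ε ≤ |G b - G a| := fun h => this ⟨⟨ha, hb⟩, h⟩
    linarith [not_le.1 h2]
  · obtain ⟨p, hp, hmin⟩ := hSc.exists_isMinOn hne (continuous_excess hG).continuousOn
    have hpne : G p.2 ≠ G p.1 := by
      intro h
      have h2 : ε ≤ |G p.2 - G p.1| := hp.2
      rw [h, sub_self, abs_zero] at h2
      linarith
    have hc : 0 < excessFn G p.1 p.2 := (excess_pos hG hanti p.1 p.2).2 hpne
    refine ⟨2 * D / excessFn G p.1 p.2, by positivity, fun a ha b hb => ?_⟩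
    have h0 := (excess_pos hG hanti a b).1
    by_cases h : ε ≤ |G b - G a|
    · have h1 : excessFn G p.1 p.2 ≤ excessFn G a b := hmin (show (a, b) ∈ S from ⟨⟨ha, hb⟩, h⟩)
      have h2 : |G b - G a| ≤ 2 * D := by
        have := abs_sub (G b) (G a)
        linarith [hD a ha, hD b hb]
      have h3 : 2 * D ≤ 2 * D / excessFn G p.1 p.2 * excessFn G a b := by
        rw [div_mul_eq_mul_div, le_div_iff₀ hc]
        exact mul_le_mul_of_nonneg_left h1 (by positivity)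
      linarith
    · have : 0 ≤ 2 * D / excessFn G p.1 p.2 * excessFn G a b := by positivity
      linarith [not_le.1 h]

private theorem core {G : ℝ → ℝ} {Λ : ℝ} (hG : Differentiable ℝ G) (h0 : ∀ s, deriv G s ≤ 0)
    (h1 : ∀ s, -Λ ≤ deriv G s) {T : Plane → Plane}
    (hT : MeasurePreserving T (volume.restrict disk) (volume.restrict disk))
    (hTm : MapsTo T disk disk) {v : Plane → ℝ} (hv : Bdd (volume.restrict disk) v)
    (hJ : ∫ x in disk, (‖T x‖ ^ 2 - ‖x‖ ^ 2) * v x = 0) :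
    ∫ x in disk, (G (‖T x‖ ^ 2) - G (‖x‖ ^ 2)) ^ 2 ≤
      2 * Λ * ∫ x in disk, |v x - G (‖x‖ ^ 2)| := by
  have hΛ : 0 ≤ Λ := by linarith [h0 0, h1 0]
  obtain ⟨e1, e2⟩ := excess hG.continuous hT hTm hv hJ
  have h2 : ∫ x in disk, (G (‖T x‖ ^ 2) - G (‖x‖ ^ 2)) ^ 2 ≤
      ∫ x in disk, 2 * Λ * excessFn G (‖x‖ ^ 2) (‖T x‖ ^ 2) :=
    integral_mono_of_nonneg (Eventually.of_forall fun x => sq_nonneg _) (e1.const_mul _)
      (Eventually.of_forall fun x => gap hG h0 h1 (‖x‖ ^ 2) (‖T x‖ ^ 2))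
  rw [integral_const_mul] at h2
  exact h2.trans (mul_le_mul_of_nonneg_left e2 (by positivity))

private theorem core_soft {G : ℝ → ℝ} (hG : Continuous G) (hanti : Antitone G) {ε : ℝ}
    (hε : 0 < ε) : ∃ C : ℝ, 0 ≤ C ∧ ∀ (T : Plane → Plane),
    MeasurePreserving T (volume.restrict disk) (volume.restrict disk) →
    MapsTo T disk disk → ∀ v : Plane → ℝ, Bdd (volume.restrict disk) v →
    ∫ x in disk, (‖T x‖ ^ 2 - ‖x‖ ^ 2) * v x = 0 →
    ∫ x in disk, |G (‖T x‖ ^ 2) - G (‖x‖ ^ 2)| ≤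
      ε * Real.pi + C * ∫ x in disk, |v x - G (‖x‖ ^ 2)| := by
  obtain ⟨C, hC0, hC⟩ := soft hG hanti hε
  refine ⟨C, hC0, fun T hT hTm v hv hJ => ?_⟩
  obtain ⟨e1, e2⟩ := excess hG hT hTm hv hJ
  have hsq : ∀ x ∈ disk, ‖x‖ ^ 2 ∈ Icc (0 : ℝ) 1 := fun x hx =>
    ⟨sq_nonneg _, pow_le_one₀ (norm_nonneg _) (mem_disk.1 hx).le⟩
  have h2 : ∫ x in disk, |G (‖T x‖ ^ 2) - G (‖x‖ ^ 2)| ≤
      ∫ x in disk, (ε + C * excessFn G (‖x‖ ^ 2) (‖T x‖ ^ 2)) := by
    refine integral_mono_of_nonneg (Eventually.of_forall fun x => abs_nonneg _)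
      ((integrable_const ε).add (e1.const_mul C)) ?_
    filter_upwards [ae_restrict_mem isOpen_disk.measurableSet] with x hx
    exact hC _ (hsq x hx) _ (hsq _ (hTm hx))
  have h3 : ∫ x in disk, (ε + C * excessFn G (‖x‖ ^ 2) (‖T x‖ ^ 2)) =
      ε * Real.pi + C * ∫ x in disk, excessFn G (‖x‖ ^ 2) (‖T x‖ ^ 2) := by
    rw [integral_add (integrable_const ε) (e1.const_mul C), integral_const_mul, integral_const,
      smul_eq_mul]
    have : (volume.restrict disk).real univ = Real.pi := by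
      simp [Measure.real, disk, Real.pi_pos.le]
    rw [this]
    ring
  rw [h3] at h2
  have := mul_le_mul_of_nonneg_left e2 hC0
  linarith

/-- `G` is differentiable and monotone with `|G'| ≤ Λ`. -/
def MonotoneProfile (Λ : ℝ) (G : ℝ → ℝ) : Prop :=
  Differentiable ℝ G ∧ ((∀ s, deriv G s ≤ 0 ∧ -Λ ≤ deriv G s) ∨
    (∀ s, 0 ≤ deriv G s ∧ deriv G s ≤ Λ))

theorem MonotoneProfile.abs_deriv {Λ : ℝ} {G : ℝ → ℝ} (h : MonotoneProfile Λ G) (s : ℝ) :
    |deriv G s| ≤ Λ := by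
  rcases h.2 with h | h
  · have := h s
    rw [abs_le]
    constructor <;> linarith [this.1, this.2]
  · have := h s
    rw [abs_le]
    constructor <;> linarith [this.1, this.2]

private theorem torque {w : ℝ → Plane → ℝ} {Φ : ℝ → Plane → Plane} (hw : DiskMotion w Φ)
    {t : ℝ} (ht : 0 ≤ t) : ∫ x in disk, (‖Φ t x‖ ^ 2 - ‖x‖ ^ 2) * w 0 x = 0 := by
  have hT := hw.flow_area t ht
  have hTm : MapsTo (Φ t) disk disk := (hw.flow_bij t ht).mapsTo
  obtain ⟨hw0m, B, hB⟩ := hw.bdd 0 le_rfl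
  have hdisk : ∀ᵐ x ∂(volume.restrict disk), x ∈ disk := ae_restrict_mem isOpen_disk.measurableSet
  have hsq : ∀ x ∈ disk, ‖x‖ ^ 2 ≤ 1 := fun x hx => pow_le_one₀ (norm_nonneg _) (mem_disk.1 hx).le
  have hc := inertia hw ht
  have i1 : Integrable (fun x => ‖Φ t x‖ ^ 2 * w 0 x) (volume.restrict disk) := by
    refine Integrable.of_bound ((hT.measurable.norm.pow_const 2).mul hw0m).aestronglyMeasurable
      |B| ?_
    filter_upwards [hdisk, hB] with x hx hx2
    rw [norm_mul, Real.norm_eq_abs, Real.norm_eq_abs, abs_of_nonneg (sq_nonneg _)]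
    calc ‖Φ t x‖ ^ 2 * |w 0 x| ≤ 1 * |B| :=
          mul_le_mul (hsq _ (hTm hx)) (hx2.trans (le_abs_self B)) (abs_nonneg _) zero_le_one
      _ = |B| := one_mul _
  have i2 : Integrable (fun x => ‖x‖ ^ 2 * w 0 x) (volume.restrict disk) := by
    refine Integrable.of_bound
      ((measurable_norm.pow_const 2).mul hw0m).aestronglyMeasurable |B| ?_
    filter_upwards [hdisk, hB] with x hx hx2
    rw [norm_mul, Real.norm_eq_abs, Real.norm_eq_abs, abs_of_nonneg (sq_nonneg _)]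
    calc ‖x‖ ^ 2 * |w 0 x| ≤ 1 * |B| :=
          mul_le_mul (hsq x hx) (hx2.trans (le_abs_self B)) (abs_nonneg _) zero_le_one
      _ = |B| := one_mul _
  have e : ∫ x in disk, (‖Φ t x‖ ^ 2 - ‖x‖ ^ 2) * w 0 x =
      (∫ x in disk, ‖Φ t x‖ ^ 2 * w 0 x) - ∫ x in disk, ‖x‖ ^ 2 * w 0 x := by
    rw [← integral_sub i1 i2]
    refine integral_congr_ae (Eventually.of_forall fun x => ?_)
    ring
  rw [e, hc, sub_self]

private theorem torque_neg {w : ℝ → Plane → ℝ} {Φ : ℝ → Plane → Plane} (hw : DiskMotion w Φ)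
    {t : ℝ} (ht : 0 ≤ t) : ∫ x in disk, (‖Φ t x‖ ^ 2 - ‖x‖ ^ 2) * (-w 0 x) = 0 := by
  have : ∫ x in disk, (‖Φ t x‖ ^ 2 - ‖x‖ ^ 2) * (-w 0 x) =
      -∫ x in disk, (‖Φ t x‖ ^ 2 - ‖x‖ ^ 2) * w 0 x := by
    rw [← integral_neg]
    refine integral_congr_ae (Eventually.of_forall fun x => ?_)
    ring
  rw [this, torque hw ht, neg_zero]

private theorem bdd_neg {f : Plane → ℝ} (hf : Bdd (volume.restrict disk) f) :
    Bdd (volume.restrict disk) (fun x => -f x) := by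
  obtain ⟨h, B, hB⟩ := hf
  exact ⟨h.neg, B, by simpa using hB⟩

private theorem abs_neg_sub (G : ℝ → ℝ) (f : Plane → ℝ) :
    ∫ x in disk, |-f x - -G (‖x‖ ^ 2)| = ∫ x in disk, |f x - G (‖x‖ ^ 2)| := by
  refine integral_congr_ae (Eventually.of_forall fun x => ?_)
  show |-f x - -G (‖x‖ ^ 2)| = |f x - G (‖x‖ ^ 2)|
  rw [← abs_neg]
  congr 1
  ring

/-- The displacement of a radially monotone vorticity along any motion is controlled in `L²` by
the `L¹` distance of the initial data. -/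
theorem displacement {G : ℝ → ℝ} {Λ : ℝ} (h : MonotoneProfile Λ G) {w : ℝ → Plane → ℝ}
    {Φ : ℝ → Plane → Plane} (hw : DiskMotion w Φ) {t : ℝ} (ht : 0 ≤ t) :
    ∫ x in disk, (G (‖Φ t x‖ ^ 2) - G (‖x‖ ^ 2)) ^ 2 ≤
      2 * Λ * ∫ x in disk, |w 0 x - G (‖x‖ ^ 2)| := by
  obtain ⟨hG, h⟩ := h
  have hT := hw.flow_area t ht
  have hTm : MapsTo (Φ t) disk disk := (hw.flow_bij t ht).mapsTo
  rcases h with h | h
  · exact core hG (fun s => (h s).1) (fun s => (h s).2) hT hTm (hw.bdd 0 le_rfl) (torque hw ht)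
  · have hG' : Differentiable ℝ (fun s => -G s) := hG.neg
    have hder : ∀ s, deriv (fun s => -G s) s = -deriv G s := fun s => deriv.fun_neg
    have hc := core (G := fun s => -G s) (Λ := Λ) hG'
      (fun s => by rw [hder]; linarith [(h s).1]) (fun s => by rw [hder]; linarith [(h s).2])
      hT hTm (v := fun x => -w 0 x) (bdd_neg (hw.bdd 0 le_rfl)) (torque_neg hw ht)
    have e1 : ∫ x in disk, (-G (‖Φ t x‖ ^ 2) - -G (‖x‖ ^ 2)) ^ 2 =
        ∫ x in disk, (G (‖Φ t x‖ ^ 2) - G (‖x‖ ^ 2)) ^ 2 := by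
      refine integral_congr_ae (Eventually.of_forall fun x => ?_)
      ring
    rw [e1, abs_neg_sub] at hc
    exact hc

/-- The displacement of a continuous radially monotone vorticity is small in `L¹` if the initial
data are close in `L¹`. -/
theorem displacement_soft {G : ℝ → ℝ} (hG : Continuous G) (hM : Antitone G ∨ Monotone G) {ε : ℝ}
    (hε : 0 < ε) : ∃ C : ℝ, 0 ≤ C ∧ ∀ (w : ℝ → Plane → ℝ) (Φ : ℝ → Plane → Plane),
    DiskMotion w Φ → ∀ t, 0 ≤ t → ∫ x in disk, |G (‖Φ t x‖ ^ 2) - G (‖x‖ ^ 2)| ≤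
      ε * Real.pi + C * ∫ x in disk, |w 0 x - G (‖x‖ ^ 2)| := by
  rcases hM with hM | hM
  · obtain ⟨C, hC0, hC⟩ := core_soft hG hM hε
    exact ⟨C, hC0, fun w Φ hw t ht => hC (Φ t) (hw.flow_area t ht) (hw.flow_bij t ht).mapsTo
      (w 0) (hw.bdd 0 le_rfl) (torque hw ht)⟩
  · obtain ⟨C, hC0, hC⟩ := core_soft (G := fun s => -G s) hG.neg hM.neg hε
    refine ⟨C, hC0, fun w Φ hw t ht => ?_⟩
    have h1 := hC (Φ t) (hw.flow_area t ht) (hw.flow_bij t ht).mapsTo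
      (fun x => -w 0 x) (bdd_neg (hw.bdd 0 le_rfl)) (torque_neg hw ht)
    have e1 : ∫ x in disk, |-G (‖Φ t x‖ ^ 2) - -G (‖x‖ ^ 2)| =
        ∫ x in disk, |G (‖Φ t x‖ ^ 2) - G (‖x‖ ^ 2)| := by
      refine integral_congr_ae (Eventually.of_forall fun x => ?_)
      show |-G (‖Φ t x‖ ^ 2) - -G (‖x‖ ^ 2)| = |G (‖Φ t x‖ ^ 2) - G (‖x‖ ^ 2)|
      rw [← abs_neg]
      congr 1
      ring
    rw [e1, abs_neg_sub] at h1
    exact h1

end Pool.MP_dba1af
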